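import Pool.Agent.Helper67.FlipInv

set_option autoImplicit false
set_option linter.unusedSimpArgs false
set_option linter.unusedVariables false

namespace Pool.Agent.Helper67.Flip

variable {m : ℕ}

def act1 (i : Fin m) (g : ℕ → ℕ) : ℕ → ℕ := fun x => g (Equiv.swap i.val (i.val + 1) x)

def run1 : (ℕ → ℕ) → List (Fin m) → (ℕ → ℕ)
  | g, [] => g
  | g, i :: w => run1 (act1 i g) w

def Ok1 : (ℕ → ℕ) → List (Fin m) → Prop
  | _, [] => True
  | g, i :: w => g (i.val + 1) < g i.val ∧ Ok1 (act1 i g) w

/-- the starting state -/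
def f0 (m : ℕ) : ℕ → ℕ := fun x => m - x

def u0 (m : ℕ) : State := fun _ => f0 m

theorem colourWord_cons_eq {c : Bool} {s : Letter m} (w : List (Letter m)) (h : s.1 = c) :
    colourWord c (s :: w) = s.2 :: colourWord c w := by
  simp [colourWord, h]

theorem colourWord_cons_ne {c : Bool} {s : Letter m} (w : List (Letter m)) (h : s.1 ≠ c) :
    colourWord c (s :: w) = colourWord c w := by
  simp [colourWord, h]

theorem act_eq (s : Letter m) (u : State) : act s u s.1 = act1 s.2 (u s.1) := by
  funext x; simp [act, act1]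

theorem act_ne {s : Letter m} {u : State} {c : Bool} (h : s.1 ≠ c) : act s u c = u c := by
  funext x
  simp [act, Ne.symm h]

theorem run_colour (u : State) (w : List (Letter m)) (c : Bool) :
    run u w c = run1 (u c) (colourWord c w) := by
  induction w generalizing u with
  | nil => rfl
  | cons s w ih =>
    by_cases h : s.1 = c
    · rw [colourWord_cons_eq w h]
      show run (act s u) w c = _
      rw [ih]
      subst h
      rw [act_eq]; rfl
    · rw [colourWord_cons_ne w h]
      show run (act s u) w c = _
      rw [ih, act_ne h]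

theorem ok_colour (u : State) (w : List (Letter m)) :
    Ok u w ↔ ∀ c, Ok1 (u c) (colourWord c w) := by
  induction w generalizing u with
  | nil => simp [Ok, Ok1, colourWord]
  | cons s w ih =>
    show (Desc s u ∧ Ok (act s u) w) ↔ _
    rw [ih]
    constructor
    · rintro ⟨h1, h2⟩ c
      by_cases h : s.1 = c
      · rw [colourWord_cons_eq w h]
        subst h
        refine ⟨h1, ?_⟩
        rw [← act_eq]; exact h2 _
      · rw [colourWord_cons_ne w h, ← act_ne (u := u) h]
        exact h2 c
    · intro h
      have hs := h s.1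
      rw [colourWord_cons_eq w rfl] at hs
      refine ⟨hs.1, fun c => ?_⟩
      by_cases hc : s.1 = c
      · subst hc
        rw [act_eq]; exact hs.2
      · rw [act_ne hc]
        have := h c
        rwa [colourWord_cons_ne w hc] at this

theorem adjSwap_val (i : Fin m) (x : Fin (m + 1)) :
    (adjSwap i x).val = Equiv.swap i.val (i.val + 1) x.val := by
  simp only [adjSwap, Equiv.swap_apply_def, Fin.ext_iff, Fin.val_castSucc, Fin.val_succ]
  split_ifs <;> simp

theorem run1_apply (g : ℕ → ℕ) (w : List (Fin m)) (x : Fin (m + 1)) :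
    run1 g w x.val = g ((w.map adjSwap).prod x).val := by
  induction w generalizing g with
  | nil => simp [run1]
  | cons i w ih =>
    show run1 (act1 i g) w x.val = _
    rw [ih]
    simp only [act1, List.map_cons, List.prod_cons, Equiv.Perm.mul_apply]
    rw [adjSwap_val]

def InjUpTo (m : ℕ) (g : ℕ → ℕ) : Prop := ∀ a b, a < m + 1 → b < m + 1 → g a = g b → a = b

theorem InjUpTo.act1 {g : ℕ → ℕ} (h : InjUpTo m g) (i : Fin m) : InjUpTo m (act1 i g) := by
  intro a b ha hb hab
  have := h _ _ (swap_range i.isLt ha) (swap_range i.isLt hb) hab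
  exact (Equiv.swap i.val (i.val + 1)).injective this

theorem inv1_asc {g : ℕ → ℕ} {i : Fin m} (h : g i.val < g (i.val + 1)) :
    inv1 m (act1 i g) = inv1 m g + 1 := by
  have h1 : act1 i g (i.val + 1) < act1 i g i.val := by
    simp only [act1, Equiv.swap_apply_left, Equiv.swap_apply_right]; exact h
  have h2 := inv1_swap i.isLt h1
  have h3 : (fun x => act1 i g (Equiv.swap i.val (i.val + 1) x)) = g := by
    funext x
    simp only [act1, swap_swap_apply]
  rw [h3] at h2
  exact h2.symm

theorem inv1_desc {g : ℕ → ℕ} {i : Fin m} (h : g (i.val + 1) < g i.val) :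
    inv1 m (act1 i g) + 1 = inv1 m g := inv1_swap i.isLt h

theorem inv1_le {g : ℕ → ℕ} (hg : InjUpTo m g) (w : List (Fin m)) :
    inv1 m g ≤ inv1 m (run1 g w) + w.length := by
  induction w generalizing g with
  | nil => simp [run1]
  | cons i w ih =>
    have h1 := ih (hg.act1 i)
    show inv1 m g ≤ inv1 m (run1 (act1 i g) w) + (w.length + 1)
    rcases lt_trichotomy (g i.val) (g (i.val + 1)) with h | h | h
    · have := inv1_asc h; omega
    · have := hg _ _ (by omega) (by omega) h; omega
    · have := inv1_desc h; omega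

theorem inv1_lt_of_not_ok {g : ℕ → ℕ} (hg : InjUpTo m g) (w : List (Fin m)) (h : ¬ Ok1 g w) :
    inv1 m g < inv1 m (run1 g w) + w.length := by
  induction w generalizing g with
  | nil => exact absurd trivial h
  | cons i w ih =>
    show inv1 m g < inv1 m (run1 (act1 i g) w) + (w.length + 1)
    rcases lt_trichotomy (g i.val) (g (i.val + 1)) with h' | h' | h'
    · have h1 := inv1_le (hg.act1 i) w
      have := inv1_asc h'; omega
    · have := hg _ _ (by omega) (by omega) h'; omega
    · have h2 : ¬ Ok1 (act1 i g) w := fun h2 => h ⟨h', h2⟩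
      have h3 := ih (hg.act1 i) h2
      have := inv1_desc h'; omega

theorem inv1_eq_of_ok {g : ℕ → ℕ} (w : List (Fin m)) (h : Ok1 g w) :
    inv1 m g = inv1 m (run1 g w) + w.length := by
  induction w generalizing g with
  | nil => simp [run1]
  | cons i w ih =>
    have h1 := ih h.2
    have h2 := inv1_desc h.1
    show inv1 m g = inv1 m (run1 (act1 i g) w) + (w.length + 1)
    omega

theorem injUpTo_f0 : InjUpTo m (f0 m) := by
  intro a b ha hb hab
  simp only [f0] at hab
  omega

theorem inv1_f0 : inv1 m (f0 m) = (m + 1).choose 2 := by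
  have h1 : invSet m (f0 m) = (Finset.range (m + 1)).biUnion
      (fun b => (Finset.range b).image (fun a => (a, b))) := by
    ext ⟨a, b⟩
    simp only [mem_invSet, f0, Finset.mem_biUnion, Finset.mem_range, Finset.mem_image,
      Prod.mk.injEq]
    constructor
    · rintro ⟨h1, h2, h3⟩
      exact ⟨b, h2, a, h1, rfl, rfl⟩
    · rintro ⟨b', h1, a', h2, rfl, rfl⟩
      refine ⟨h2, h1, by omega⟩
  unfold inv1
  rw [h1, Finset.card_biUnion]
  · have h2 : ∀ b ∈ Finset.range (m + 1), ((Finset.range b).image (fun a => (a, b))).card = b := by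
      intro b _
      rw [Finset.card_image_of_injective _ (fun x y h => (Prod.mk.injEq _ _ _ _ ▸ h).1),
        Finset.card_range]
    rw [Finset.sum_congr rfl h2, Finset.sum_range_id, Nat.choose_two_right]
  · intro b _ b' _ hbb
    rw [Function.onFun, Finset.disjoint_left]
    rintro ⟨x, y⟩ hx hy
    simp only [Finset.mem_image, Finset.mem_range, Prod.mk.injEq] at hx hy
    obtain ⟨_, _, _, rfl⟩ := hx
    obtain ⟨_, _, _, h⟩ := hy
    exact hbb h.symm

theorem inv1_sorted {g : ℕ → ℕ} (h : ∀ x, x < m + 1 → g x = x) : inv1 m g = 0 := by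
  unfold inv1
  rw [Finset.card_eq_zero, Finset.eq_empty_iff_forall_notMem]
  rintro ⟨a, b⟩ hab
  rw [mem_invSet] at hab
  obtain ⟨h1, h2, h3⟩ := hab
  simp only at h1 h2 h3
  rw [h a (by omega), h b h2] at h3
  omega

theorem isWiring_iff (w : List (Fin m)) : IsWiring w ↔
    Ok1 (f0 m) w ∧ ∀ i : Fin m, ¬ run1 (f0 m) w (i.val + 1) < run1 (f0 m) w i.val := by
  constructor
  · rintro ⟨h1, h2⟩
    have hs : ∀ x, x < m + 1 → run1 (f0 m) w x = x := by
      intro x hx
      have := run1_apply (f0 m) w ⟨x, hx⟩
      simp only at this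
      rw [this, h1]
      simp only [f0, Fin.revPerm_apply, Fin.val_rev]
      omega
    refine ⟨?_, ?_⟩
    · by_contra hno
      have h3 := inv1_lt_of_not_ok injUpTo_f0 w hno
      rw [inv1_sorted hs, inv1_f0, h2] at h3
      omega
    · intro i
      rw [hs _ (by omega), hs _ (by omega)]
      omega
  · rintro ⟨h1, h2⟩
    set σ : Equiv.Perm (Fin (m + 1)) := (w.map adjSwap).prod with hσ
    have hval : ∀ x : Fin (m + 1), run1 (f0 m) w x.val = (Fin.rev (σ x)).val := by
      intro x
      rw [run1_apply, ← hσ]
      simp only [f0, Fin.val_rev]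
      omega
    have hstep : ∀ i : Fin m, Fin.rev (σ i.castSucc) < Fin.rev (σ i.succ) := by
      intro i
      have h3 := h2 i
      have e1 := hval i.castSucc
      have e2 := hval i.succ
      simp only [Fin.val_castSucc, Fin.val_succ] at e1 e2
      rw [e1, e2] at h3
      have h4 : Fin.rev (σ i.castSucc) ≠ Fin.rev (σ i.succ) := by
        intro h5
        have h6 := σ.injective (Fin.rev_injective h5)
        have := congrArg Fin.val h6
        simp at this
      have h7 : (Fin.rev (σ i.castSucc)).val ≠ (Fin.rev (σ i.succ)).val := fun h => h4 (Fin.ext h)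
      rw [Fin.lt_def]
      omega
    have hmono : StrictMono (fun x => Fin.rev (σ x)) := by
      rw [Fin.strictMono_iff_lt_succ]
      exact hstep
    have hid : ∀ x, Fin.rev (σ x) = x := by
      intro x
      exact le_antisymm (hmono.apply_le) (hmono.le_apply)
    refine ⟨?_, ?_⟩
    · ext x
      rw [Fin.revPerm_apply, ← hσ]
      have := congrArg Fin.rev (hid x)
      rw [Fin.rev_rev] at this
      rw [this]
    · have h3 := inv1_eq_of_ok w h1
      have h4 : ∀ x, x < m + 1 → run1 (f0 m) w x = x := by
        intro x hx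
        have := hval ⟨x, hx⟩
        rw [hid] at this
        exact this
      rw [inv1_sorted h4, inv1_f0] at h3
      omega

/-- The double wiring words are the complete descending words of the starting state. -/
theorem isDoubleWiring_iff (w : List (Letter m)) : IsDoubleWiring w ↔ Red (u0 m) w := by
  unfold IsDoubleWiring Red Term Desc
  simp only [isWiring_iff, ok_colour, run_colour]
  constructor
  · intro h
    exact ⟨fun c => (h c).1, fun s => (h s.1).2 s.2⟩
  · rintro ⟨h1, h2⟩ c
    exact ⟨h1 c, fun i => h2 (c, i)⟩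

end Pool.Agent.Helper67.Flip
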