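import Pool.Agent.Helper67.FlipPotential
import Pool.Agent.Helper67.FlipWord

set_option autoImplicit false
set_option linter.unusedSimpArgs false
set_option linter.unusedVariables false

namespace Pool.Agent.Helper67.Flip

variable {m : ℕ} {A : Type*} [Group A]

/-- a chosen double wiring word -/
noncomputable def baseWord (m : ℕ) : DWord m :=
  ⟨Classical.choose (exists_red (m := m) _ (u0 m) rfl),
    (isDoubleWiring_iff _).mpr (Classical.choose_spec (exists_red (m := m) _ (u0 m) rfl))⟩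

/-- the class of a word (junk value for words that are not double wiring words) -/
noncomputable def cls (w : List (Letter m)) : Vertex m := by
  classical
  exact if h : IsDoubleWiring w then Quotient.mk (commSetoid m) ⟨w, h⟩
    else Quotient.mk (commSetoid m) (baseWord m)

theorem cls_eq {w : List (Letter m)} (h : Red (u0 m) w) :
    cls w = Quotient.mk (commSetoid m) ⟨w, (isDoubleWiring_iff w).mpr h⟩ := by
  unfold cls
  rw [dif_pos ((isDoubleWiring_iff w).mpr h)]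

theorem cls_free {x z : List (Letter m)} {s t : Letter m} (h : Free s t)
    (h1 : Red (u0 m) (x ++ ([s, t] ++ z))) (h2 : Red (u0 m) (x ++ ([t, s] ++ z))) :
    cls (x ++ ([s, t] ++ z)) = cls (x ++ ([t, s] ++ z)) := by
  rw [cls_eq h1, cls_eq h2]
  apply Quotient.sound
  apply Relation.EqvGen.rel
  exact ⟨x, z, s, t, h, by simp, by simp⟩

/-- two letters that commute but not freely: the same index and different colours -/
def Mixed (s t : Letter m) : Prop := s.1 ≠ t.1 ∧ s.2 = t.2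

theorem Mixed.symm {s t : Letter m} (h : Mixed s t) : Mixed t s := ⟨Ne.symm h.1, h.2.symm⟩

theorem free_or_mixed {s t : Letter m} (h1 : s ≠ t) (h2 : ¬ Adj3 s t) : Free s t ∨ Mixed s t := by
  have hne := letter_ne h1
  simp only [Adj3, not_and_or, not_or] at h2
  unfold Free Mixed
  by_cases hc : s.1 = t.1
  · left; left
    refine ⟨hc, ?_⟩
    rcases hne with h | h
    · exact absurd hc h
    · rcases h2 with h3 | h3
      · exact absurd hc h3
      · omega
  · by_cases hi : s.2 = t.2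
    · exact Or.inr ⟨hc, hi⟩
    · exact Or.inl (Or.inr ⟨hc, hi⟩)

theorem not_free_of_adj {s t : Letter m} (h : Adj3 s t) : ¬ Free s t := by
  rintro (⟨_, h1⟩ | ⟨h1, _⟩)
  · have := h.2; omega
  · exact h1 h.1

theorem not_free_of_mixed {s t : Letter m} (h : Mixed s t) : ¬ Free s t := by
  rintro (⟨h1, _⟩ | ⟨_, h1⟩)
  · exact h.1 h1
  · exact h1 h.2

theorem cls_braid {x z : List (Letter m)} {s t : Letter m} (h : Adj3 s t)
    (h1 : Red (u0 m) (x ++ ([s, t, s] ++ z))) (h2 : Red (u0 m) (x ++ ([t, s, t] ++ z))) :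
    CoxeterAdj s.1 (cls (x ++ ([s, t, s] ++ z))) (cls (x ++ ([t, s, t] ++ z))) := by
  rw [cls_eq h1, cls_eq h2]
  have ht : t = (s.1, t.2) := Prod.ext h.1.symm rfl
  refine ⟨_, _, rfl, rfl, x, z, s.2, t.2, h.2, ?_, ?_⟩
  · simp only [← ht]; simp
  · simp only [← ht]; simp

theorem cls_mixed {x z : List (Letter m)} {s t : Letter m} (h : Mixed s t)
    (h1 : Red (u0 m) (x ++ ([s, t] ++ z))) (h2 : Red (u0 m) (x ++ ([t, s] ++ z))) :
    MixedAdj (cls (x ++ ([s, t] ++ z))) (cls (x ++ ([t, s] ++ z))) := by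
  rw [cls_eq h1, cls_eq h2]
  have hc : t.1 = !s.1 := by
    have := h.1
    revert this
    cases s.1 <;> cases t.1 <;> simp
  have ht : t = (!s.1, s.2) := Prod.ext hc h.2.symm
  have hs : s = (s.1, s.2) := rfl
  refine ⟨_, _, rfl, rfl, x, z, s.2, s.1, ?_, ?_⟩
  · simp only [← ht]; simp
  · simp only [← ht]; simp

theorem cls_ne {x z l l' : List (Letter m)} {a b : Letter m} (hab : ¬ Free a b)
    (h1 : Red (u0 m) (x ++ (l ++ z))) (h2 : Red (u0 m) (x ++ (l' ++ z)))
    (hne : restrictTo a b l ≠ restrictTo a b l') :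
    cls (x ++ (l ++ z)) ≠ cls (x ++ (l' ++ z)) := by
  rw [cls_eq h1, cls_eq h2]
  intro h
  have h3 := restrictTo_eq_of_mk_eq hab h
  simp only [restrictTo_append] at h3
  exact hne (List.append_cancel_right (List.append_cancel_left h3))

/-- an `A`-valued cocycle on the complex `X_n` -/
structure GCoc (φ : Vertex m → Vertex m → A) : Prop where
  refl : ∀ x, φ x x = 1
  symm : ∀ x y, (flipGraph m).Adj x y → φ y x = (φ x y)⁻¹
  c4 : ∀ x0 x1 x2 x3, (flipGraph m).Adj x0 x1 → (flipGraph m).Adj x1 x2 →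
    (flipGraph m).Adj x2 x3 → (flipGraph m).Adj x3 x0 → x0 ≠ x2 → x1 ≠ x3 →
    φ x0 x1 * (φ x1 x2 * (φ x2 x3 * φ x3 x0)) = 1
  c5 : ∀ x0 x1 x2 x3 x4, (flipGraph m).Adj x0 x1 → (flipGraph m).Adj x1 x2 →
    (flipGraph m).Adj x2 x3 → (flipGraph m).Adj x3 x4 → (flipGraph m).Adj x4 x0 →
    [x0, x1, x2, x3, x4].Nodup →
    φ x0 x1 * (φ x1 x2 * (φ x2 x3 * (φ x3 x4 * φ x4 x0))) = 1
  c8 : ∀ (col : Bool) (x0 x1 x2 x3 x4 x5 x6 x7 : Vertex m), CoxeterAdj col x0 x1 →
    CoxeterAdj col x1 x2 → CoxeterAdj col x2 x3 → CoxeterAdj col x3 x4 →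
    CoxeterAdj col x4 x5 → CoxeterAdj col x5 x6 → CoxeterAdj col x6 x7 →
    CoxeterAdj col x7 x0 → [x0, x1, x2, x3, x4, x5, x6, x7].Nodup →
    φ x0 x1 * (φ x1 x2 * (φ x2 x3 * (φ x3 x4 * (φ x4 x5 * (φ x5 x6 * (φ x6 x7 *
      φ x7 x0)))))) = 1

theorem adj_of_cox {c : Bool} {x y : Vertex m} (h : CoxeterAdj c x y) : (flipGraph m).Adj x y :=
  Or.inl ⟨c, h⟩

theorem adj_of_mixed {x y : Vertex m} (h : MixedAdj x y) : (flipGraph m).Adj x y := Or.inr h

/-- A move either leaves the class unchanged (free commutation, in every context) or is an edge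
of the flip graph (in every context). -/
theorem move_dichotomy {s t : Letter m} (h : s ≠ t) :
    (∀ x z : List (Letter m), Red (u0 m) (x ++ (B s t ++ z)) →
      cls (x ++ (B s t ++ z)) = cls (x ++ (B t s ++ z))) ∨
    (∀ x z : List (Letter m), Red (u0 m) (x ++ (B s t ++ z)) →
      (flipGraph m).Adj (cls (x ++ (B s t ++ z))) (cls (x ++ (B t s ++ z)))) := by
  by_cases ha : Adj3 s t
  · right
    intro x z hr
    have hr2 := (Move.mk x z s t h).red hr
    rw [B_adj ha, B_adj ha.symm] at *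
    exact adj_of_cox (cls_braid ha hr hr2)
  · have ha' : ¬ Adj3 t s := fun h => ha h.symm
    rcases free_or_mixed h ha with hf | hm
    · left
      intro x z hr
      have hr2 := (Move.mk x z s t h).red hr
      rw [B_nadj ha, B_nadj ha'] at *
      exact cls_free hf hr hr2
    · right
      intro x z hr
      have hr2 := (Move.mk x z s t h).red hr
      rw [B_nadj ha, B_nadj ha'] at *
      exact adj_of_mixed (cls_mixed hm hr hr2)

theorem GCoc.square {φ : Vertex m → Vertex m → A} (hφ : GCoc φ) {x0 x1 x2 x3 : Vertex m}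
    (h01 : (flipGraph m).Adj x0 x1) (h12 : (flipGraph m).Adj x1 x2)
    (h03 : (flipGraph m).Adj x0 x3) (h32 : (flipGraph m).Adj x3 x2) :
    φ x0 x1 * φ x1 x2 = φ x0 x3 * φ x3 x2 := by
  by_cases h1 : x0 = x2
  · subst h1
    rw [hφ.symm _ _ h01, hφ.symm _ _ h03]
    simp
  · by_cases h2 : x1 = x3
    · subst h2; rfl
    · have := hφ.c4 x0 x1 x2 x3 h01 h12 h32.symm h03.symm h1 h2
      rw [hφ.symm _ _ h03, hφ.symm _ _ h32] at this
      rw [← mul_assoc] at this
      have h3 := eq_inv_of_mul_eq_one_left this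
      rw [h3]
      group

theorem GCoc.back {φ : Vertex m → Vertex m → A} (hφ : GCoc φ) {x y : Vertex m}
    (h : (flipGraph m).Adj x y) : φ x y * φ y x = 1 := by
  rw [hφ.symm _ _ h]; simp

theorem ctx_eq (x z p q l : List (Letter m)) :
    x ++ ((p ++ (l ++ q)) ++ z) = (x ++ p) ++ (l ++ (q ++ z)) := by
  simp [List.append_assoc]

theorem ctx_comm (x z p q : List (Letter m)) {s t : Letter m} (h1 : s ≠ t) (h2 : ¬ Adj3 s t)
    (h : Red (u0 m) (x ++ ((p ++ ([s, t] ++ q)) ++ z))) :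
    Red (u0 m) (x ++ ((p ++ ([t, s] ++ q)) ++ z)) := by
  rw [ctx_eq] at h ⊢
  exact Move.red_comm _ _ h1 h2 h

theorem ctx_braid (x z p q : List (Letter m)) {s t : Letter m} (h2 : Adj3 s t)
    (h : Red (u0 m) (x ++ ((p ++ ([s, t, s] ++ q)) ++ z))) :
    Red (u0 m) (x ++ ((p ++ ([t, s, t] ++ q)) ++ z)) := by
  rw [ctx_eq] at h ⊢
  exact Move.red_braid _ _ h2 h

theorem ctx_cls_free (x z p q : List (Letter m)) {s t : Letter m} (hf : Free s t)
    (h : Red (u0 m) (x ++ ((p ++ ([s, t] ++ q)) ++ z)))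
    (h' : Red (u0 m) (x ++ ((p ++ ([t, s] ++ q)) ++ z))) :
    cls (x ++ ((p ++ ([s, t] ++ q)) ++ z)) = cls (x ++ ((p ++ ([t, s] ++ q)) ++ z)) := by
  rw [ctx_eq] at h h'
  rw [ctx_eq, ctx_eq]
  exact cls_free hf h h'

theorem ctx_cls_mixed (x z p q : List (Letter m)) {s t : Letter m} (hf : Mixed s t)
    (h : Red (u0 m) (x ++ ((p ++ ([s, t] ++ q)) ++ z)))
    (h' : Red (u0 m) (x ++ ((p ++ ([t, s] ++ q)) ++ z))) :
    (flipGraph m).Adj (cls (x ++ ((p ++ ([s, t] ++ q)) ++ z)))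
      (cls (x ++ ((p ++ ([t, s] ++ q)) ++ z))) := by
  rw [ctx_eq] at h h'
  rw [ctx_eq, ctx_eq]
  exact adj_of_mixed (cls_mixed hf h h')

theorem ctx_cls_braid (x z p q : List (Letter m)) {s t : Letter m} (hf : Adj3 s t)
    (h : Red (u0 m) (x ++ ((p ++ ([s, t, s] ++ q)) ++ z)))
    (h' : Red (u0 m) (x ++ ((p ++ ([t, s, t] ++ q)) ++ z))) :
    CoxeterAdj s.1 (cls (x ++ ((p ++ ([s, t, s] ++ q)) ++ z)))
      (cls (x ++ ((p ++ ([t, s, t] ++ q)) ++ z))) := by
  rw [ctx_eq] at h h'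
  rw [ctx_eq, ctx_eq]
  exact cls_braid hf h h'

theorem coc_t0 {φ : Vertex m → Vertex m → A} (hφ : GCoc φ) (x z : List (Letter m))
    {s t r : Letter m} (h1 : s ≠ t) (h2 : t ≠ r) (h3 : r ≠ s)
    (n1 : ¬ Adj3 s t) (n2 : ¬ Adj3 t r) (n3 : ¬ Adj3 r s)
    (w0 : Red (u0 m) (x ++ ([s,t,r] ++ z))) :
    chain (fun a b => φ (cls a) (cls b)) ((hexW s t r).map (fun l => x ++ (l ++ z))) = 1 := by
  have n1' : ¬ Adj3 t s := fun h => n1 h.symm
  have n2' : ¬ Adj3 r t := fun h => n2 h.symm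
  have n3' : ¬ Adj3 s r := fun h => n3 h.symm
  have w1 : Red (u0 m) (x ++ ([t,s,r] ++ z)) := ctx_comm x z [] [r] h1 n1 w0
  have w2 : Red (u0 m) (x ++ ([t,r,s] ++ z)) := ctx_comm x z [t] [] (Ne.symm h3) n3' w1
  have w3 : Red (u0 m) (x ++ ([r,t,s] ++ z)) := ctx_comm x z [] [s] h2 n2 w2
  have w4 : Red (u0 m) (x ++ ([r,s,t] ++ z)) := ctx_comm x z [r] [] (Ne.symm h1) n1' w3
  have w5 : Red (u0 m) (x ++ ([s,r,t] ++ z)) := ctx_comm x z [] [t] h3 n3 w4
  have f1 : Free s t → cls (x ++ ([s,t,r] ++ z)) = cls (x ++ ([t,s,r] ++ z)) ∧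
      cls (x ++ ([r,t,s] ++ z)) = cls (x ++ ([r,s,t] ++ z)) := fun hf =>
    ⟨ctx_cls_free x z [] [r] hf w0 w1, ctx_cls_free x z [r] [] hf.symm w3 w4⟩
  have f2 : Free s r → cls (x ++ ([t,s,r] ++ z)) = cls (x ++ ([t,r,s] ++ z)) ∧
      cls (x ++ ([r,s,t] ++ z)) = cls (x ++ ([s,r,t] ++ z)) := fun hf =>
    ⟨ctx_cls_free x z [t] [] hf w1 w2, ctx_cls_free x z [] [t] hf.symm w4 w5⟩
  have f3 : Free t r → cls (x ++ ([t,r,s] ++ z)) = cls (x ++ ([r,t,s] ++ z)) ∧
      cls (x ++ ([s,r,t] ++ z)) = cls (x ++ ([s,t,r] ++ z)) := fun hf =>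
    ⟨ctx_cls_free x z [] [s] hf w2 w3, ctx_cls_free x z [s] [] hf.symm w5 w0⟩
  have g1 : Mixed s t → (flipGraph m).Adj (cls (x ++ ([s,t,r] ++ z))) (cls (x ++ ([t,s,r] ++ z))) :=
    fun hf => ctx_cls_mixed x z [] [r] hf w0 w1
  have g2 : Mixed s r → (flipGraph m).Adj (cls (x ++ ([t,s,r] ++ z))) (cls (x ++ ([t,r,s] ++ z))) :=
    fun hf => ctx_cls_mixed x z [t] [] hf w1 w2
  have g3 : Mixed t r → (flipGraph m).Adj (cls (x ++ ([t,r,s] ++ z))) (cls (x ++ ([r,t,s] ++ z))) :=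
    fun hf => ctx_cls_mixed x z [] [s] hf w2 w3
  simp only [hexW, List.map_cons, List.map_nil, chain]
  generalize cls (x ++ ([s,t,r] ++ z)) = k0 at *
  generalize cls (x ++ ([t,s,r] ++ z)) = k1 at *
  generalize cls (x ++ ([t,r,s] ++ z)) = k2 at *
  generalize cls (x ++ ([r,t,s] ++ z)) = k3 at *
  generalize cls (x ++ ([r,s,t] ++ z)) = k4 at *
  generalize cls (x ++ ([s,r,t] ++ z)) = k5 at *
  have dd : ∀ {a b c : Letter m}, a ≠ c → Mixed a b → Mixed b c → False := by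
    rintro a b c hac ⟨p1, p2⟩ ⟨p3, p4⟩
    apply hac
    have : a.1 = c.1 := by
      revert p1 p3
      cases a.1 <;> cases b.1 <;> cases c.1 <;> simp
    exact Prod.ext this (p2.trans p4)
  rcases free_or_mixed h1 n1 with a1 | a1
  · obtain ⟨e1, e2⟩ := f1 a1
    rcases free_or_mixed (Ne.symm h3) n3' with a2 | a2
    · obtain ⟨e3, e4⟩ := f2 a2
      rcases free_or_mixed h2 n2 with a3 | a3
      · obtain ⟨e5, e6⟩ := f3 a3
        rw [← e5, ← e3, ← e1]
        have : k4 = k0 := by rw [e4, e6]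
        rw [this, e6]
        simp [hφ.refl]
      · have := g3 a3
        subst e1 e2 e3 e4
        simp only [hφ.refl, one_mul, mul_one]
        exact hφ.back this
    · rcases free_or_mixed h2 n2 with a3 | a3
      · obtain ⟨e5, e6⟩ := f3 a3
        have := g2 a2
        subst e1 e2 e5 e6
        simp only [hφ.refl, one_mul, mul_one]
        exact hφ.back this
      · exact (dd h1 a2 a3.symm).elim
  · rcases free_or_mixed (Ne.symm h3) n3' with a2 | a2
    · obtain ⟨e3, e4⟩ := f2 a2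
      rcases free_or_mixed h2 n2 with a3 | a3
      · obtain ⟨e5, e6⟩ := f3 a3
        have := g1 a1
        subst e3 e4 e5 e6
        simp only [hφ.refl, one_mul, mul_one]
        exact hφ.back this
      · exact (dd (Ne.symm h3) a1 a3).elim
    · exact (dd h2 a1.symm a2).elim

theorem coc_t1 {φ : Vertex m → Vertex m → A} (hφ : GCoc φ) (x z : List (Letter m))
    {a b c : Letter m} (hab : Adj3 a b) (nac : ¬ Adj3 a c) (nbc : ¬ Adj3 b c)
    (hac : a ≠ c) (hbc : b ≠ c)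
    (w0 : Red (u0 m) (x ++ ([c,a,b,a] ++ z))) :
    chain (fun a b => φ (cls a) (cls b)) ((octW a b c).map (fun l => x ++ (l ++ z))) = 1 := by
  have nca : ¬ Adj3 c a := fun h => nac h.symm
  have ncb : ¬ Adj3 c b := fun h => nbc h.symm
  have hca := Ne.symm hac
  have hcb := Ne.symm hbc
  have hab' := hab.ne
  have hba' := hab.symm.ne
  have w1 : Red (u0 m) (x ++ ([a,c,b,a] ++ z)) := ctx_comm x z [] [b,a] hca nca w0
  have w2 : Red (u0 m) (x ++ ([a,b,c,a] ++ z)) := ctx_comm x z [a] [a] hcb ncb w1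
  have w3 : Red (u0 m) (x ++ ([a,b,a,c] ++ z)) := ctx_comm x z [a,b] [] hca nca w2
  have w4 : Red (u0 m) (x ++ ([b,a,b,c] ++ z)) := ctx_braid x z [] [c] hab w3
  have w5 : Red (u0 m) (x ++ ([b,a,c,b] ++ z)) := ctx_comm x z [b,a] [] hbc nbc w4
  have w6 : Red (u0 m) (x ++ ([b,c,a,b] ++ z)) := ctx_comm x z [b] [b] hac nac w5
  have w7 : Red (u0 m) (x ++ ([c,b,a,b] ++ z)) := ctx_comm x z [] [a,b] hbc nbc w6
  have j3 := adj_of_cox (ctx_cls_braid x z [] [c] hab w3 w4)
  have j7 := adj_of_cox (ctx_cls_braid x z [c] [] hab.symm w7 w0)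
  have f0 : Free c a → cls (x ++ ([c,a,b,a] ++ z)) = cls (x ++ ([a,c,b,a] ++ z)) ∧
      cls (x ++ ([a,b,c,a] ++ z)) = cls (x ++ ([a,b,a,c] ++ z)) ∧
      cls (x ++ ([b,a,c,b] ++ z)) = cls (x ++ ([b,c,a,b] ++ z)) := fun hf =>
    ⟨ctx_cls_free x z [] [b,a] hf w0 w1, ctx_cls_free x z [a,b] [] hf w2 w3,
      ctx_cls_free x z [b] [b] hf.symm w5 w6⟩
  have f1 : Free c b → cls (x ++ ([a,c,b,a] ++ z)) = cls (x ++ ([a,b,c,a] ++ z)) ∧
      cls (x ++ ([b,a,b,c] ++ z)) = cls (x ++ ([b,a,c,b] ++ z)) ∧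
      cls (x ++ ([b,c,a,b] ++ z)) = cls (x ++ ([c,b,a,b] ++ z)) := fun hf =>
    ⟨ctx_cls_free x z [a] [a] hf w1 w2, ctx_cls_free x z [b,a] [] hf.symm w4 w5,
      ctx_cls_free x z [] [a,b] hf.symm w6 w7⟩
  have g0 : Mixed c a →
      (flipGraph m).Adj (cls (x ++ ([c,a,b,a] ++ z))) (cls (x ++ ([a,c,b,a] ++ z))) ∧
      (flipGraph m).Adj (cls (x ++ ([a,b,c,a] ++ z))) (cls (x ++ ([a,b,a,c] ++ z))) ∧
      (flipGraph m).Adj (cls (x ++ ([b,a,c,b] ++ z))) (cls (x ++ ([b,c,a,b] ++ z))) := fun hf =>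
    ⟨ctx_cls_mixed x z [] [b,a] hf w0 w1, ctx_cls_mixed x z [a,b] [] hf w2 w3,
      ctx_cls_mixed x z [b] [b] hf.symm w5 w6⟩
  have g1 : Mixed c b →
      (flipGraph m).Adj (cls (x ++ ([a,c,b,a] ++ z))) (cls (x ++ ([a,b,c,a] ++ z))) ∧
      (flipGraph m).Adj (cls (x ++ ([b,a,b,c] ++ z))) (cls (x ++ ([b,a,c,b] ++ z))) ∧
      (flipGraph m).Adj (cls (x ++ ([b,c,a,b] ++ z))) (cls (x ++ ([c,b,a,b] ++ z))) := fun hf =>
    ⟨ctx_cls_mixed x z [a] [a] hf w1 w2, ctx_cls_mixed x z [b,a] [] hf.symm w4 w5,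
      ctx_cls_mixed x z [] [a,b] hf.symm w6 w7⟩
  -- distinctness, first case
  have na : Mixed c a → [cls (x ++ ([c,a,b,a] ++ z)), cls (x ++ ([a,c,b,a] ++ z)),
      cls (x ++ ([a,b,a,c] ++ z)), cls (x ++ ([b,a,b,c] ++ z)),
      cls (x ++ ([b,c,a,b] ++ z))].Nodup := by
    intro hm
    have hnf : ¬ Free a c := not_free_of_mixed hm.symm
    have d01 := cls_ne hnf w0 w1 (by simp [restrictTo, hab', hba', hac, hbc, hca, hcb])
    have d03 := cls_ne hnf w0 w3 (by simp [restrictTo, hab', hba', hac, hbc, hca, hcb])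
    have d04 := cls_ne hnf w0 w4 (by simp [restrictTo, hab', hba', hac, hbc, hca, hcb])
    have d06 := cls_ne hnf w0 w6 (by simp [restrictTo, hab', hba', hac, hbc, hca, hcb])
    have d13 := cls_ne hnf w1 w3 (by simp [restrictTo, hab', hba', hac, hbc, hca, hcb])
    have d14 := cls_ne hnf w1 w4 (by simp [restrictTo, hab', hba', hac, hbc, hca, hcb])
    have d16 := cls_ne hnf w1 w6 (by simp [restrictTo, hab', hba', hac, hbc, hca, hcb])
    have d34 := cls_ne hnf w3 w4 (by simp [restrictTo, hab', hba', hac, hbc, hca, hcb])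
    have d36 := cls_ne hnf w3 w6 (by simp [restrictTo, hab', hba', hac, hbc, hca, hcb])
    have d46 := cls_ne hnf w4 w6 (by simp [restrictTo, hab', hba', hac, hbc, hca, hcb])
    generalize cls (x ++ ([c,a,b,a] ++ z)) = k0 at *
    generalize cls (x ++ ([a,c,b,a] ++ z)) = k1 at *
    generalize cls (x ++ ([a,b,a,c] ++ z)) = k3 at *
    generalize cls (x ++ ([b,a,b,c] ++ z)) = k4 at *
    generalize cls (x ++ ([b,c,a,b] ++ z)) = k6 at *
    simp [d01, d03, d04, d06, d13, d14, d16, d34, d36, d46]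
  have nb : Mixed c b → [cls (x ++ ([c,a,b,a] ++ z)), cls (x ++ ([a,b,c,a] ++ z)),
      cls (x ++ ([b,a,b,c] ++ z)), cls (x ++ ([b,a,c,b] ++ z)),
      cls (x ++ ([c,b,a,b] ++ z))].Nodup := by
    intro hm
    have hnf : ¬ Free b c := not_free_of_mixed hm.symm
    have d02 := cls_ne hnf w0 w2 (by simp [restrictTo, hab', hba', hac, hbc, hca, hcb])
    have d04 := cls_ne hnf w0 w4 (by simp [restrictTo, hab', hba', hac, hbc, hca, hcb])
    have d05 := cls_ne hnf w0 w5 (by simp [restrictTo, hab', hba', hac, hbc, hca, hcb])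
    have d07 := cls_ne hnf w0 w7 (by simp [restrictTo, hab', hba', hac, hbc, hca, hcb])
    have d24 := cls_ne hnf w2 w4 (by simp [restrictTo, hab', hba', hac, hbc, hca, hcb])
    have d25 := cls_ne hnf w2 w5 (by simp [restrictTo, hab', hba', hac, hbc, hca, hcb])
    have d27 := cls_ne hnf w2 w7 (by simp [restrictTo, hab', hba', hac, hbc, hca, hcb])
    have d45 := cls_ne hnf w4 w5 (by simp [restrictTo, hab', hba', hac, hbc, hca, hcb])
    have d47 := cls_ne hnf w4 w7 (by simp [restrictTo, hab', hba', hac, hbc, hca, hcb])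
    have d57 := cls_ne hnf w5 w7 (by simp [restrictTo, hab', hba', hac, hbc, hca, hcb])
    generalize cls (x ++ ([c,a,b,a] ++ z)) = k0 at *
    generalize cls (x ++ ([a,b,c,a] ++ z)) = k2 at *
    generalize cls (x ++ ([b,a,b,c] ++ z)) = k4 at *
    generalize cls (x ++ ([b,a,c,b] ++ z)) = k5 at *
    generalize cls (x ++ ([c,b,a,b] ++ z)) = k7 at *
    simp [d02, d04, d05, d07, d24, d25, d27, d45, d47, d57]
  simp only [List.nil_append, List.cons_append] at j3 j7 f0 f1 g0 g1 na nb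
  simp only [octW, List.map_cons, List.map_nil, chain, List.nil_append, List.cons_append]
  generalize cls (x ++ (c :: a :: b :: a :: z)) = k0 at *
  generalize cls (x ++ (a :: c :: b :: a :: z)) = k1 at *
  generalize cls (x ++ (a :: b :: c :: a :: z)) = k2 at *
  generalize cls (x ++ (a :: b :: a :: c :: z)) = k3 at *
  generalize cls (x ++ (b :: a :: b :: c :: z)) = k4 at *
  generalize cls (x ++ (b :: a :: c :: b :: z)) = k5 at *
  generalize cls (x ++ (b :: c :: a :: b :: z)) = k6 at *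
  generalize cls (x ++ (c :: b :: a :: b :: z)) = k7 at *
  rcases free_or_mixed hca nca with a1 | a1
  · obtain ⟨e1, e2, e3⟩ := f0 a1
    rcases free_or_mixed hcb ncb with a2 | a2
    · obtain ⟨e4, e5, e6⟩ := f1 a2
      subst e1 e2 e3 e4 e5 e6
      simp only [hφ.refl, one_mul, mul_one]
      exact hφ.back j3
    · obtain ⟨e4, e5, e6⟩ := g1 a2
      have hn := nb a2
      subst e1 e2 e3
      simp only [hφ.refl, one_mul, mul_one]
      exact hφ.c5 _ _ _ _ _ e4 j3 e5 e6 j7 hn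
  · obtain ⟨e1, e2, e3⟩ := g0 a1
    rcases free_or_mixed hcb ncb with a2 | a2
    · obtain ⟨e4, e5, e6⟩ := f1 a2
      have hn := na a1
      subst e4 e5 e6
      simp only [hφ.refl, one_mul, mul_one]
      exact hφ.c5 _ _ _ _ _ e1 e2 j3 e3 j7 hn
    · exfalso
      have h1 := a1.2
      have h2 := a2.2
      have h3 := hab.2
      rw [h1] at h2
      rw [h2] at h3
      omega

theorem coc_t2 {φ : Vertex m → Vertex m → A} (hφ : GCoc φ) (x z : List (Letter m))
    {a b c : Letter m} (hab : Adj3 a b) (hbc : Adj3 b c) (nac : ¬ Adj3 a c)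
    (hac : a ≠ c)
    (w0 : Red (u0 m) (x ++ ([a,b,a,c,b,a] ++ z))) :
    chain (fun a b => φ (cls a) (cls b)) ((bigW a b c).map (fun l => x ++ (l ++ z))) = 1 := by
  have nca : ¬ Adj3 c a := fun h => nac h.symm
  have hca := Ne.symm hac
  have hfree : Free a c := by
    rcases free_or_mixed hac nac with h | h
    · exact h
    · exfalso
      exact h.1 (hab.1.trans hbc.1)
  have w1 : Red (u0 m) (x ++ ([b,a,b,c,b,a] ++ z)) := ctx_braid x z [] [c,b,a] hab w0
  have w2 : Red (u0 m) (x ++ ([b,a,c,b,c,a] ++ z)) := ctx_braid x z [b,a] [a] hbc w1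
  have w3 : Red (u0 m) (x ++ ([b,c,a,b,c,a] ++ z)) := ctx_comm x z [b] [b,c,a] hac nac w2
  have w4 : Red (u0 m) (x ++ ([b,c,a,b,a,c] ++ z)) := ctx_comm x z [b,c,a,b] [] hca nca w3
  have w5 : Red (u0 m) (x ++ ([b,c,b,a,b,c] ++ z)) := ctx_braid x z [b,c] [c] hab w4
  have w6 : Red (u0 m) (x ++ ([c,b,c,a,b,c] ++ z)) := ctx_braid x z [] [a,b,c] hbc w5
  have w7 : Red (u0 m) (x ++ ([c,b,a,c,b,c] ++ z)) := ctx_comm x z [c,b] [b,c] hca nca w6
  have w8 : Red (u0 m) (x ++ ([c,b,a,b,c,b] ++ z)) := ctx_braid x z [c,b,a] [] hbc.symm w7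
  have w9 : Red (u0 m) (x ++ ([c,a,b,a,c,b] ++ z)) := ctx_braid x z [c] [c,b] hab.symm w8
  have w10 : Red (u0 m) (x ++ ([a,c,b,a,c,b] ++ z)) := ctx_comm x z [] [b,a,c,b] hca nca w9
  have w11 : Red (u0 m) (x ++ ([a,c,b,c,a,b] ++ z)) := ctx_comm x z [a,c,b] [b] hac nac w10
  have w12 : Red (u0 m) (x ++ ([a,b,c,b,a,b] ++ z)) := ctx_braid x z [a] [a,b] hbc.symm w11
  have w13 : Red (u0 m) (x ++ ([a,b,c,a,b,a] ++ z)) := ctx_braid x z [a,b,c] [] hab.symm w12
  have c0 := ctx_cls_braid x z [] [c,b,a] hab w0 w1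
  have c1 := ctx_cls_braid x z [b,a] [a] hbc w1 w2
  have c2 := ctx_cls_free x z [b] [b,c,a] hfree w2 w3
  have c3 := ctx_cls_free x z [b,c,a,b] [] hfree.symm w3 w4
  have c4 := ctx_cls_braid x z [b,c] [c] hab w4 w5
  have c5 := ctx_cls_braid x z [] [a,b,c] hbc w5 w6
  have c6 := ctx_cls_free x z [c,b] [b,c] hfree.symm w6 w7
  have c7 := ctx_cls_braid x z [c,b,a] [] hbc.symm w7 w8
  have c8 := ctx_cls_braid x z [c] [c,b] hab.symm w8 w9
  have c9 := ctx_cls_free x z [] [b,a,c,b] hfree.symm w9 w10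
  have c10 := ctx_cls_free x z [a,c,b] [b] hfree w10 w11
  have c11 := ctx_cls_braid x z [a] [a,b] hbc.symm w11 w12
  have c12 := ctx_cls_braid x z [a,b,c] [] hab.symm w12 w13
  have c13 := ctx_cls_free x z [a,b] [b,a] hfree.symm w13 w0
  have hb1 : b.1 = a.1 := hab.1.symm
  have hc1 : c.1 = a.1 := (hab.1.trans hbc.1).symm
  rw [hb1] at c1 c5 c8 c12
  rw [hc1] at c7 c11
  have hab' := hab.ne
  have hba' := hab.symm.ne
  have hbc' := hbc.ne
  have hcb' := hbc.symm.ne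
  have hnf : ¬ Free a b := not_free_of_adj hab
  have d0_1 := cls_ne hnf w0 w1
    (by simp [restrictTo, hab', hba', hbc', hcb', hac, hca])
  have d0_2 := cls_ne hnf w0 w2
    (by simp [restrictTo, hab', hba', hbc', hcb', hac, hca])
  have d0_5 := cls_ne hnf w0 w5
    (by simp [restrictTo, hab', hba', hbc', hcb', hac, hca])
  have d0_6 := cls_ne hnf w0 w6
    (by simp [restrictTo, hab', hba', hbc', hcb', hac, hca])
  have d0_8 := cls_ne hnf w0 w8
    (by simp [restrictTo, hab', hba', hbc', hcb', hac, hca])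
  have d0_9 := cls_ne hnf w0 w9
    (by simp [restrictTo, hab', hba', hbc', hcb', hac, hca])
  have d0_12 := cls_ne hnf w0 w12
    (by simp [restrictTo, hab', hba', hbc', hcb', hac, hca])
  have d1_2 := cls_ne hnf w1 w2
    (by simp [restrictTo, hab', hba', hbc', hcb', hac, hca])
  have d1_5 := cls_ne hnf w1 w5
    (by simp [restrictTo, hab', hba', hbc', hcb', hac, hca])
  have d1_6 := cls_ne hnf w1 w6
    (by simp [restrictTo, hab', hba', hbc', hcb', hac, hca])
  have d1_8 := cls_ne hnf w1 w8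
    (by simp [restrictTo, hab', hba', hbc', hcb', hac, hca])
  have d1_9 := cls_ne hnf w1 w9
    (by simp [restrictTo, hab', hba', hbc', hcb', hac, hca])
  have d1_12 := cls_ne hnf w1 w12
    (by simp [restrictTo, hab', hba', hbc', hcb', hac, hca])
  have d2_5 := cls_ne hnf w2 w5
    (by simp [restrictTo, hab', hba', hbc', hcb', hac, hca])
  have d2_6 := cls_ne hnf w2 w6
    (by simp [restrictTo, hab', hba', hbc', hcb', hac, hca])
  have d2_8 := cls_ne hnf w2 w8
    (by simp [restrictTo, hab', hba', hbc', hcb', hac, hca])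
  have d2_9 := cls_ne hnf w2 w9
    (by simp [restrictTo, hab', hba', hbc', hcb', hac, hca])
  have d2_12 := cls_ne hnf w2 w12
    (by simp [restrictTo, hab', hba', hbc', hcb', hac, hca])
  have d5_6 := cls_ne hnf w5 w6
    (by simp [restrictTo, hab', hba', hbc', hcb', hac, hca])
  have d5_8 := cls_ne hnf w5 w8
    (by simp [restrictTo, hab', hba', hbc', hcb', hac, hca])
  have d5_9 := cls_ne hnf w5 w9
    (by simp [restrictTo, hab', hba', hbc', hcb', hac, hca])
  have d5_12 := cls_ne hnf w5 w12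
    (by simp [restrictTo, hab', hba', hbc', hcb', hac, hca])
  have d6_8 := cls_ne hnf w6 w8
    (by simp [restrictTo, hab', hba', hbc', hcb', hac, hca])
  have d6_9 := cls_ne hnf w6 w9
    (by simp [restrictTo, hab', hba', hbc', hcb', hac, hca])
  have d6_12 := cls_ne hnf w6 w12
    (by simp [restrictTo, hab', hba', hbc', hcb', hac, hca])
  have d8_9 := cls_ne hnf w8 w9
    (by simp [restrictTo, hab', hba', hbc', hcb', hac, hca])
  have d8_12 := cls_ne hnf w8 w12
    (by simp [restrictTo, hab', hba', hbc', hcb', hac, hca])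
  have d9_12 := cls_ne hnf w9 w12
    (by simp [restrictTo, hab', hba', hbc', hcb', hac, hca])
  simp only [List.nil_append, List.cons_append] at c0 c1 c2 c3 c4 c5 c6 c7 c8 c9 c10 c11 c12 c13
  simp only [List.nil_append, List.cons_append] at d0_1 d0_2 d0_5 d0_6 d0_8 d0_9 d0_12 d1_2 d1_5 d1_6 d1_8 d1_9 d1_12 d2_5 d2_6 d2_8 d2_9 d2_12 d5_6 d5_8 d5_9 d5_12 d6_8 d6_9 d6_12 d8_9 d8_12 d9_12
  simp only [bigW, List.map_cons, List.map_nil, chain, List.nil_append, List.cons_append]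
  generalize cls (x ++ (a :: b :: a :: c :: b :: a :: z)) = k0 at *
  generalize cls (x ++ (b :: a :: b :: c :: b :: a :: z)) = k1 at *
  generalize cls (x ++ (b :: a :: c :: b :: c :: a :: z)) = k2 at *
  generalize cls (x ++ (b :: c :: a :: b :: c :: a :: z)) = k3 at *
  generalize cls (x ++ (b :: c :: a :: b :: a :: c :: z)) = k4 at *
  generalize cls (x ++ (b :: c :: b :: a :: b :: c :: z)) = k5 at *
  generalize cls (x ++ (c :: b :: c :: a :: b :: c :: z)) = k6 at *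
  generalize cls (x ++ (c :: b :: a :: c :: b :: c :: z)) = k7 at *
  generalize cls (x ++ (c :: b :: a :: b :: c :: b :: z)) = k8 at *
  generalize cls (x ++ (c :: a :: b :: a :: c :: b :: z)) = k9 at *
  generalize cls (x ++ (a :: c :: b :: a :: c :: b :: z)) = k10 at *
  generalize cls (x ++ (a :: c :: b :: c :: a :: b :: z)) = k11 at *
  generalize cls (x ++ (a :: b :: c :: b :: a :: b :: z)) = k12 at *
  generalize cls (x ++ (a :: b :: c :: a :: b :: a :: z)) = k13 at *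
  subst c2 c3 c6 c9 c10 c13
  simp only [hφ.refl, one_mul, mul_one]
  refine hφ.c8 a.1 _ _ _ _ _ _ _ _ c0 c1 c4 c5 c7 c8 c11 c12 ?_
  simp [d0_1, d0_2, d0_5, d0_6, d0_8, d0_9, d0_12, d1_2, d1_5, d1_6, d1_8, d1_9, d1_12, d2_5, d2_6, d2_8, d2_9, d2_12, d5_6, d5_8, d5_9, d5_12, d6_8, d6_9, d6_12, d8_9, d8_12, d9_12]

theorem coc_of_gcoc {φ : Vertex m → Vertex m → A} (hφ : GCoc φ) :
    Coc (u0 m) (fun a b => φ (cls a) (cls b)) where
  symm := by
    rintro a b ha ⟨x, z, s, t, hst⟩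
    rcases move_dichotomy hst with h | h
    · rw [h x z ha, hφ.refl]; simp
    · exact hφ.symm _ _ (h x z ha)
  sq := by
    intro x y z s t s' t' hst hst' hr
    have hr1 : Red (u0 m) (x ++ (B t s ++ (y ++ (B s' t' ++ z)))) :=
      (Move.mk x (y ++ (B s' t' ++ z)) s t hst).red hr
    have e1 : x ++ (B s t ++ (y ++ (B s' t' ++ z))) = (x ++ (B s t ++ y)) ++ (B s' t' ++ z) := by
      simp [List.append_assoc]
    have e2 : x ++ (B s t ++ (y ++ (B t' s' ++ z))) = (x ++ (B s t ++ y)) ++ (B t' s' ++ z) := by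
      simp [List.append_assoc]
    have e3 : x ++ (B t s ++ (y ++ (B s' t' ++ z))) = (x ++ (B t s ++ y)) ++ (B s' t' ++ z) := by
      simp [List.append_assoc]
    have e4 : x ++ (B t s ++ (y ++ (B t' s' ++ z))) = (x ++ (B t s ++ y)) ++ (B t' s' ++ z) := by
      simp [List.append_assoc]
    have hr2 : Red (u0 m) (x ++ (B s t ++ (y ++ (B t' s' ++ z)))) := by
      rw [e1] at hr
      have := (Move.mk (x ++ (B s t ++ y)) z s' t' hst').red hr
      rwa [← e2] at this
    rcases move_dichotomy hst with h | h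
    · rw [h x _ hr, hφ.refl, one_mul, h x _ hr2, hφ.refl, mul_one]
    · rcases move_dichotomy hst' with h' | h'
      · have k1 : cls (x ++ (B t s ++ (y ++ (B s' t' ++ z)))) =
            cls (x ++ (B t s ++ (y ++ (B t' s' ++ z)))) := by
          rw [e3, e4]; rw [e3] at hr1; exact h' _ _ hr1
        have k2 : cls (x ++ (B s t ++ (y ++ (B s' t' ++ z)))) =
            cls (x ++ (B s t ++ (y ++ (B t' s' ++ z)))) := by
          rw [e1, e2]; rw [e1] at hr; exact h' _ _ hr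
        rw [k1, k2, hφ.refl, hφ.refl]; simp
      · apply hφ.square
        · exact h _ _ hr
        · rw [e3] at hr1 ⊢; rw [e4]; exact h' _ _ hr1
        · rw [e1] at hr ⊢; rw [e2]; exact h' _ _ hr
        · exact h _ _ hr2
  t0 x z s t r h1 h2 h3 n1 n2 n3 w0 := coc_t0 hφ x z h1 h2 h3 n1 n2 n3 w0
  t1 x z a b c h1 h2 h3 h4 h5 w0 := coc_t1 hφ x z h1 h2 h3 h4 h5 w0
  t2 x z a b c h1 h2 h3 h4 w0 := coc_t2 hφ x z h1 h2 h3 h4 w0

end Pool.Agent.Helper67.Flip
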