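import Mathlib

/-!
# Double wiring diagrams, their flip graph, and homotopy of closed walks

`m` is a natural number and `n = m + 1` is the number of strands.  The index `i : Fin m`
stands for the index `i + 1` in `{1, ..., n - 1}`.
-/

set_option autoImplicit false

namespace Pool.Agent.Helper67.Flip

/-- A letter: a colour (`false` = unbarred, `true` = barred) and an index in `{1, ..., n - 1}`. -/
abbrev Letter (m : ℕ) : Type := Bool × Fin m

/-- The adjacent transposition of `S_n` (`n = m + 1`) exchanging the positions `i` and `i + 1`. -/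
def adjSwap {m : ℕ} (i : Fin m) : Equiv.Perm (Fin (m + 1)) := Equiv.swap i.castSucc i.succ

/-- A single wiring diagram on `n = m + 1` strands: a reduced word for the longest permutation
`w₀ = Fin.revPerm`, that is, a word with product `w₀` whose length is `n choose 2`. -/
def IsWiring {m : ℕ} (w : List (Fin m)) : Prop :=
  (w.map adjSwap).prod = Fin.revPerm ∧ w.length = (m + 1).choose 2

/-- The letters of colour `c` of a word, in order, with the colour forgotten. -/
def colourWord {m : ℕ} (c : Bool) (w : List (Letter m)) : List (Fin m) :=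
  w.filterMap (fun l => if l.1 = c then some l.2 else none)

/-- A double wiring diagram word on `n = m + 1` strands: both its unbarred and its barred letters
form a single wiring diagram. -/
def IsDoubleWiring {m : ℕ} (w : List (Letter m)) : Prop := ∀ c : Bool, IsWiring (colourWord c w)

/-- The type of words that are double wiring diagrams. -/
abbrev DWord (m : ℕ) : Type := {w : List (Letter m) // IsDoubleWiring w}

/-- Two letters which may be interchanged for free when they are next to each other: same colour
and indices differing by at least two, or different colours and different indices. -/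
def Free {m : ℕ} (a b : Letter m) : Prop :=
  (a.1 = b.1 ∧ (a.2.val + 2 ≤ b.2.val ∨ b.2.val + 2 ≤ a.2.val)) ∨ (a.1 ≠ b.1 ∧ a.2 ≠ b.2)

/-- One free commutation. -/
def Commutation {m : ℕ} (w w' : List (Letter m)) : Prop :=
  ∃ (x z : List (Letter m)) (a b : Letter m), Free a b ∧
    w = x ++ [a, b] ++ z ∧ w' = x ++ [b, a] ++ z

/-- The equivalence relation generated by the free commutations. -/
def commSetoid (m : ℕ) : Setoid (DWord m) :=
  Relation.EqvGen.setoid (fun w w' : DWord m => Commutation w.1 w'.1)

/-- The vertices of the flip graph: classes of double wiring words under free commutations. -/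
abbrev Vertex (m : ℕ) : Type := Quotient (commSetoid m)

/-- A Coxeter move of colour `c`: `i (i+1) i ↔ (i+1) i (i+1)`. -/
def CoxeterMove {m : ℕ} (c : Bool) (w w' : List (Letter m)) : Prop :=
  ∃ (x z : List (Letter m)) (i j : Fin m), (i.val + 1 = j.val ∨ j.val + 1 = i.val) ∧
    w = x ++ [(c, i), (c, j), (c, i)] ++ z ∧ w' = x ++ [(c, j), (c, i), (c, j)] ++ z

/-- A mixed move: `i ī ↔ ī i`. -/
def MixedMove {m : ℕ} (w w' : List (Letter m)) : Prop :=
  ∃ (x z : List (Letter m)) (i : Fin m) (c : Bool),
    w = x ++ [(c, i), (!c, i)] ++ z ∧ w' = x ++ [(!c, i), (c, i)] ++ z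

/-- The classes `x` and `y` are related by a Coxeter move of colour `c`. -/
def CoxeterAdj {m : ℕ} (c : Bool) (x y : Vertex m) : Prop :=
  ∃ w w' : DWord m, x = Quotient.mk (commSetoid m) w ∧ y = Quotient.mk (commSetoid m) w' ∧
    CoxeterMove c w.1 w'.1

/-- The classes `x` and `y` are related by a mixed move. -/
def MixedAdj {m : ℕ} (x y : Vertex m) : Prop :=
  ∃ w w' : DWord m, x = Quotient.mk (commSetoid m) w ∧ y = Quotient.mk (commSetoid m) w' ∧
    MixedMove w.1 w'.1

/-- The subword of the letters equal to `a` or `b`. -/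
def restrictTo {m : ℕ} (a b : Letter m) (w : List (Letter m)) : List (Letter m) :=
  w.filter (fun l => decide (l = a ∨ l = b))

theorem restrictTo_append {m : ℕ} (a b : Letter m) (w w' : List (Letter m)) :
    restrictTo a b (w ++ w') = restrictTo a b w ++ restrictTo a b w' := by
  simp [restrictTo]

theorem Free.symm {m : ℕ} {a b : Letter m} (h : Free a b) : Free b a := by
  unfold Free at *
  rcases h with ⟨h1, h2⟩ | ⟨h1, h2⟩
  · exact Or.inl ⟨h1.symm, h2.symm⟩
  · exact Or.inr ⟨Ne.symm h1, Ne.symm h2⟩

/-- The subword on two letters that do not commute freely is an invariant of the class. -/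
theorem restrictTo_comm {m : ℕ} {a b : Letter m} (hab : ¬ Free a b) {w w' : List (Letter m)}
    (h : Commutation w w') : restrictTo a b w = restrictTo a b w' := by
  obtain ⟨x, z, c, d, hcd, rfl, rfl⟩ := h
  simp only [restrictTo_append]
  have hcd' : ¬ (c = a ∧ d = b) := by rintro ⟨rfl, rfl⟩; exact hab hcd
  have hcd'' : ¬ (c = b ∧ d = a) := by rintro ⟨rfl, rfl⟩; exact hab hcd.symm
  have hne : c = d → restrictTo a b [c, d] = restrictTo a b [d, c] := by rintro rfl; rfl
  have key : restrictTo a b [c, d] = restrictTo a b [d, c] := by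
    by_cases hc : c = a ∨ c = b
    · by_cases hd : d = a ∨ d = b
      · apply hne
        rcases hc with rfl | rfl <;> rcases hd with rfl | rfl
        · rfl
        · exact absurd ⟨rfl, rfl⟩ hcd'
        · exact absurd ⟨rfl, rfl⟩ hcd''
        · rfl
      · simp [restrictTo, hc, hd]
    · simp [restrictTo, List.filter_cons, hc]
  rw [key]

theorem restrictTo_eq_of_mk_eq {m : ℕ} {a b : Letter m} (hab : ¬ Free a b) {w w' : DWord m}
    (h : Quotient.mk (commSetoid m) w = Quotient.mk (commSetoid m) w') :
    restrictTo a b w.1 = restrictTo a b w'.1 := by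
  have h' : Relation.EqvGen (fun w w' : DWord m => Commutation w.1 w'.1) w w' := Quotient.exact h
  clear h
  induction h' with
  | rel _ _ h => exact restrictTo_comm hab h
  | refl _ => rfl
  | symm _ _ _ ih => exact ih.symm
  | trans _ _ _ _ _ ih1 ih2 => exact ih1.trans ih2

theorem CoxeterMove.symm {m : ℕ} {c : Bool} {w w' : List (Letter m)} (h : CoxeterMove c w w') :
    CoxeterMove c w' w := by
  obtain ⟨x, z, i, j, hij, rfl, rfl⟩ := h
  exact ⟨x, z, j, i, hij.symm, rfl, rfl⟩

theorem MixedMove.symm {m : ℕ} {w w' : List (Letter m)} (h : MixedMove w w') :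
    MixedMove w' w := by
  obtain ⟨x, z, i, c, rfl, rfl⟩ := h
  exact ⟨x, z, i, !c, by simp, by simp⟩

theorem CoxeterAdj.symm {m : ℕ} {c : Bool} {x y : Vertex m} (h : CoxeterAdj c x y) :
    CoxeterAdj c y x := by
  obtain ⟨w, w', hx, hy, h⟩ := h
  exact ⟨w', w, hy, hx, h.symm⟩

theorem MixedAdj.symm {m : ℕ} {x y : Vertex m} (h : MixedAdj x y) : MixedAdj y x := by
  obtain ⟨w, w', hx, hy, h⟩ := h
  exact ⟨w', w, hy, hx, h.symm⟩

/-- A Coxeter move always changes the class. -/
theorem CoxeterAdj.ne {m : ℕ} {c : Bool} {x y : Vertex m} (h : CoxeterAdj c x y) : x ≠ y := by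
  rintro rfl
  obtain ⟨w, w', hx, hy, x, z, i, j, hij, hw, hw'⟩ := h
  have hne : i ≠ j := by rintro rfl; omega
  have hfree : ¬ Free (c, i) (c, j) := by
    simp only [Free]; rintro (⟨_, h⟩ | ⟨h, _⟩)
    · omega
    · exact h rfl
  have h1 := restrictTo_eq_of_mk_eq hfree (hx.symm.trans hy)
  rw [hw, hw'] at h1
  simp only [restrictTo_append] at h1
  have h2 := List.append_cancel_right h1
  have h3 := List.append_cancel_left h2
  simp [restrictTo, hne] at h3

/-- A mixed move always changes the class. -/
theorem MixedAdj.ne {m : ℕ} {x y : Vertex m} (h : MixedAdj x y) : x ≠ y := by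
  rintro rfl
  obtain ⟨w, w', hx, hy, x, z, i, c, hw, hw'⟩ := h
  have hfree : ¬ Free (c, i) (!c, i) := by
    simp only [Free]; rintro (⟨h, _⟩ | ⟨_, h⟩)
    · cases c <;> simp at h
    · exact h rfl
  have h1 := restrictTo_eq_of_mk_eq hfree (hx.symm.trans hy)
  rw [hw, hw'] at h1
  simp only [restrictTo_append] at h1
  have h2 := List.append_cancel_right h1
  have h3 := List.append_cancel_left h2
  simp [restrictTo] at h3

/-- The flip graph `G_n` (`n = m + 1`) of double wiring diagrams: its vertices are the classes of
words under free commutations, and two classes are adjacent when they have representatives which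
differ by a flip (a Coxeter move of either colour, or a mixed move). -/
def flipGraph (m : ℕ) : SimpleGraph (Vertex m) where
  Adj x y := (∃ c, CoxeterAdj c x y) ∨ MixedAdj x y
  symm := ⟨fun _ _ h => h.elim (fun ⟨c, h⟩ => Or.inl ⟨c, h.symm⟩) (fun h => Or.inr h.symm)⟩
  loopless := ⟨fun _ h => h.elim (fun ⟨_, h⟩ => h.ne rfl) (fun h => h.ne rfl)⟩

/-- The cycles of `G_n` along which a 2-cell of `X_n` is attached: the cycles of length 4, the
cycles of length 5, and the cycles of length 8 all of whose edges are Coxeter moves of one and the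
same colour. -/
def IsCell {m : ℕ} {x : Vertex m} (c : (flipGraph m).Walk x x) : Prop :=
  c.IsCycle ∧ (c.length = 4 ∨ c.length = 5 ∨
    (c.length = 8 ∧ ∃ col : Bool, ∀ d ∈ c.darts, CoxeterAdj col d.fst d.snd))

/-- Elementary homotopies of walks of `G_n` in `X_n`: deleting a backtrack, or deleting a closed
subwalk that runs once around the boundary of a 2-cell. -/
inductive ElemHomotopy {m : ℕ} {u v : Vertex m} :
    (flipGraph m).Walk u v → (flipGraph m).Walk u v → Prop
  | backtrack {x y : Vertex m} (p : (flipGraph m).Walk u x) (h : (flipGraph m).Adj x y)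
      (q : (flipGraph m).Walk x v) :
      ElemHomotopy (p.append (SimpleGraph.Walk.cons h (SimpleGraph.Walk.cons h.symm q)))
        (p.append q)
  | cell {x : Vertex m} (p : (flipGraph m).Walk u x) (c : (flipGraph m).Walk x x)
      (q : (flipGraph m).Walk x v) (hc : IsCell c) :
      ElemHomotopy (p.append (c.append q)) (p.append q)

/-- Homotopy (relative to the end points) of walks of `G_n` in the complex `X_n`. -/
def Homotopic {m : ℕ} {u v : Vertex m} (p q : (flipGraph m).Walk u v) : Prop :=
  Relation.EqvGen ElemHomotopy p q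

end Pool.Agent.Helper67.Flip
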