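import Pool.Agent.Helper67.FlipCells

set_option autoImplicit false
set_option linter.unusedSimpArgs false
set_option linter.unusedVariables false

namespace Pool.Agent.Helper67.Flip

open SimpleGraph

variable {m : ℕ}

theorem Homotopic.refl {u v : Vertex m} (p : (flipGraph m).Walk u v) : Homotopic p p :=
  Relation.EqvGen.refl p

theorem Homotopic.symm {u v : Vertex m} {p q : (flipGraph m).Walk u v} (h : Homotopic p q) :
    Homotopic q p := Relation.EqvGen.symm _ _ h

theorem Homotopic.trans {u v : Vertex m} {p q r : (flipGraph m).Walk u v} (h : Homotopic p q)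
    (h' : Homotopic q r) : Homotopic p r := Relation.EqvGen.trans _ _ _ h h'

theorem Homotopic.append_left {u v w : Vertex m} (r : (flipGraph m).Walk u v)
    {p q : (flipGraph m).Walk v w} (h : Homotopic p q) :
    Homotopic (r.append p) (r.append q) := by
  induction h with
  | rel _ _ h =>
    apply Relation.EqvGen.rel
    cases h with
    | backtrack p h q =>
      rw [Walk.append_assoc, Walk.append_assoc]
      exact ElemHomotopy.backtrack _ h q
    | cell p c q hc =>
      rw [Walk.append_assoc r p, Walk.append_assoc r p]
      exact ElemHomotopy.cell _ c q hc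
  | refl _ => exact Homotopic.refl _
  | symm _ _ _ ih => exact ih.symm
  | trans _ _ _ _ _ ih1 ih2 => exact ih1.trans ih2

theorem Homotopic.append_right {u v w : Vertex m} {p q : (flipGraph m).Walk u v}
    (h : Homotopic p q) (r : (flipGraph m).Walk v w) :
    Homotopic (p.append r) (q.append r) := by
  induction h with
  | rel _ _ h =>
    apply Relation.EqvGen.rel
    cases h with
    | backtrack p h q =>
      rw [← Walk.append_assoc, ← Walk.append_assoc]
      exact ElemHomotopy.backtrack _ h _
    | cell p c q hc =>
      rw [← Walk.append_assoc, ← Walk.append_assoc, ← Walk.append_assoc]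
      exact ElemHomotopy.cell _ c _ hc
  | refl _ => exact Homotopic.refl _
  | symm _ _ _ ih => exact ih.symm
  | trans _ _ _ _ _ ih1 ih2 => exact ih1.trans ih2

theorem Homotopic.append {u v w : Vertex m} {p p' : (flipGraph m).Walk u v}
    {q q' : (flipGraph m).Walk v w} (h : Homotopic p p') (h' : Homotopic q q') :
    Homotopic (p.append q) (p'.append q') :=
  (h.append_right q).trans (Homotopic.append_left p' h')

theorem IsCell.reverse {x : Vertex m} {c : (flipGraph m).Walk x x} (h : IsCell c) :
    IsCell c.reverse := by
  refine ⟨h.1.reverse, ?_⟩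
  rw [Walk.length_reverse]
  rcases h.2 with h | h | ⟨h, col, h'⟩
  · exact Or.inl h
  · exact Or.inr (Or.inl h)
  · refine Or.inr (Or.inr ⟨h, col, ?_⟩)
    intro d hd
    rw [Walk.darts_reverse] at hd
    simp only [List.mem_reverse, List.mem_map] at hd
    obtain ⟨e, he, rfl⟩ := hd
    exact (h' e he).symm

theorem Homotopic.reverse {u v : Vertex m} {p q : (flipGraph m).Walk u v}
    (h : Homotopic p q) : Homotopic p.reverse q.reverse := by
  induction h with
  | rel _ _ h =>
    apply Relation.EqvGen.rel
    cases h with
    | backtrack p h q =>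
      simp only [Walk.reverse_append, Walk.reverse_cons, ← Walk.append_assoc, Walk.cons_append,
        Walk.nil_append]
      exact ElemHomotopy.backtrack _ h _
    | cell p c q hc =>
      simp only [Walk.reverse_append, ← Walk.append_assoc]
      exact ElemHomotopy.cell _ _ _ hc.reverse
  | refl _ => exact Homotopic.refl _
  | symm _ _ _ ih => exact ih.symm
  | trans _ _ _ _ _ ih1 ih2 => exact ih1.trans ih2

theorem homotopic_reverse_append {u v : Vertex m} (p : (flipGraph m).Walk u v) :
    Homotopic (p.reverse.append p) Walk.nil := by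
  induction p with
  | nil => exact Homotopic.refl _
  | cons h p ih =>
    simp only [Walk.reverse_cons, ← Walk.append_assoc, Walk.cons_append, Walk.nil_append]
    exact (Relation.EqvGen.rel _ _ (ElemHomotopy.backtrack p.reverse h.symm p)).trans _ _ _ ih

theorem homotopic_append_reverse {u v : Vertex m} (p : (flipGraph m).Walk u v) :
    Homotopic (p.append p.reverse) Walk.nil := by
  have := homotopic_reverse_append p.reverse
  rwa [Walk.reverse_reverse] at this

/-- homotopy classes of closed walks -/
def loopSetoid (x : Vertex m) : Setoid ((flipGraph m).Walk x x) :=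
  Relation.EqvGen.setoid ElemHomotopy

def Pi1 (x : Vertex m) : Type := Quotient (loopSetoid x)

def Pi1.mk {x : Vertex m} (p : (flipGraph m).Walk x x) : Pi1 x := Quotient.mk (loopSetoid x) p

theorem Pi1.sound {x : Vertex m} {p q : (flipGraph m).Walk x x} (h : Homotopic p q) :
    Pi1.mk p = Pi1.mk q := Quotient.sound h

theorem Pi1.exact {x : Vertex m} {p q : (flipGraph m).Walk x x} (h : Pi1.mk p = Pi1.mk q) :
    Homotopic p q := Quotient.exact h

instance (x : Vertex m) : Group (Pi1 x) where
  mul := Quotient.map₂ (fun p q => p.append q) (fun _ _ h _ _ h' => Homotopic.append h h')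
  one := Pi1.mk Walk.nil
  inv := Quotient.map (fun p => p.reverse) (fun _ _ h => Homotopic.reverse h)
  mul_assoc a b c := by
    induction a using Quotient.inductionOn
    induction b using Quotient.inductionOn
    induction c using Quotient.inductionOn
    exact congrArg Pi1.mk (Walk.append_assoc _ _ _).symm
  one_mul a := by
    induction a using Quotient.inductionOn
    exact congrArg Pi1.mk (Walk.nil_append _)
  mul_one a := by
    induction a using Quotient.inductionOn
    exact congrArg Pi1.mk (Walk.append_nil _)
  inv_mul_cancel a := by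
    induction a using Quotient.inductionOn
    exact Pi1.sound (homotopic_reverse_append _)

theorem Pi1.mul_mk {x : Vertex m} (p q : (flipGraph m).Walk x x) :
    Pi1.mk p * Pi1.mk q = Pi1.mk (p.append q) := rfl

theorem Pi1.inv_mk {x : Vertex m} (p : (flipGraph m).Walk x x) :
    (Pi1.mk p)⁻¹ = Pi1.mk p.reverse := rfl

theorem Pi1.one_def {x : Vertex m} : (1 : Pi1 x) = Pi1.mk Walk.nil := rfl

/-- the tautological cocycle -/
noncomputable def tautCoc {x : Vertex m} (τ : ∀ y, (flipGraph m).Walk x y) (y z : Vertex m) :
    Pi1 x := by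
  classical
  exact if h : (flipGraph m).Adj y z then
    Pi1.mk ((τ y).append ((Walk.cons h Walk.nil).append (τ z).reverse)) else 1

/-- product along a walk -/
def walkProd {A : Type*} [Group A] (φ : Vertex m → Vertex m → A) :
    ∀ {y z : Vertex m}, (flipGraph m).Walk y z → A
  | _, _, Walk.nil => 1
  | y, _, Walk.cons (v := y') _ p => φ y y' * walkProd φ p

theorem walkProd_taut {x : Vertex m} (τ : ∀ y, (flipGraph m).Walk x y) {y z : Vertex m}
    (p : (flipGraph m).Walk y z) :
    walkProd (tautCoc τ) p = Pi1.mk ((τ y).append (p.append (τ z).reverse)) := by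
  induction p with
  | nil =>
    show 1 = _
    rw [Walk.nil_append, Pi1.one_def]
    exact (Pi1.sound (homotopic_append_reverse _)).symm
  | cons h p ih =>
    show tautCoc τ _ _ * walkProd (tautCoc τ) p = _
    rw [ih]
    unfold tautCoc
    rw [dif_pos h, Pi1.mul_mk]
    apply Pi1.sound
    simp only [← Walk.append_assoc, Walk.cons_append, Walk.nil_append]
    apply Homotopic.append_left
    have : Homotopic (((Walk.cons h Walk.nil).append
        ((τ _).reverse.append ((τ _).append (p.append (τ _).reverse)))))
        ((Walk.cons h Walk.nil).append (p.append (τ _).reverse)) := by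
      apply Homotopic.append_left
      rw [Walk.append_assoc]
      exact (homotopic_reverse_append _).append_right _
    simpa using this

theorem walkProd_cell {x : Vertex m} (τ : ∀ y, (flipGraph m).Walk x y) {y : Vertex m}
    (c : (flipGraph m).Walk y y) (hc : IsCell c) : walkProd (tautCoc τ) c = 1 := by
  rw [walkProd_taut, Pi1.one_def]
  apply Pi1.sound
  exact (Relation.EqvGen.rel _ _ (ElemHomotopy.cell (τ y) c (τ y).reverse hc)).trans _ _ _
    (homotopic_append_reverse _)

theorem gcoc_taut {x : Vertex m} (τ : ∀ y, (flipGraph m).Walk x y) : GCoc (tautCoc τ) where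
  refl y := by
    unfold tautCoc
    rw [dif_neg ((flipGraph m).loopless.irrefl y)]
  symm y z h := by
    unfold tautCoc
    rw [dif_pos h, dif_pos h.symm, Pi1.inv_mk]
    apply congrArg Pi1.mk
    simp [Walk.reverse_append, ← Walk.append_assoc]
  c4 x0 x1 x2 x3 h01 h12 h23 h30 h02 h13 := by
    have hcell : IsCell (Walk.cons h01 (Walk.cons h12 (Walk.cons h23 (Walk.cons h30 Walk.nil)))) := by
      refine ⟨?_, Or.inl rfl⟩
      have n01 := h01.ne
      have n12 := h12.ne
      have n23 := h23.ne
      have n30 := h30.ne
      simp only [Walk.cons_isCycle_iff, Walk.cons_isPath_iff, Walk.IsPath.nil, true_and,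
        Walk.support_cons, Walk.support_nil, Walk.edges_cons, Walk.edges_nil, List.mem_cons,
        List.not_mem_nil, or_false, Sym2.eq_iff, Prod.mk.injEq]
      grind
    have := walkProd_cell τ _ hcell
    simpa only [walkProd, mul_one] using this
  c5 x0 x1 x2 x3 x4 h01 h12 h23 h34 h40 hn := by
    have hcell : IsCell (Walk.cons h01 (Walk.cons h12 (Walk.cons h23 (Walk.cons h34
        (Walk.cons h40 Walk.nil))))) := by
      refine ⟨?_, Or.inr (Or.inl rfl)⟩
      simp only [List.nodup_cons, List.mem_cons, List.not_mem_nil, or_false, not_or] at hn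
      simp only [Walk.cons_isCycle_iff, Walk.cons_isPath_iff, Walk.IsPath.nil, true_and,
        Walk.support_cons, Walk.support_nil, Walk.edges_cons, Walk.edges_nil, List.mem_cons,
        List.not_mem_nil, or_false, Sym2.eq_iff, Prod.mk.injEq]
      grind
    have := walkProd_cell τ _ hcell
    simpa only [walkProd, mul_one] using this
  c8 col x0 x1 x2 x3 x4 x5 x6 x7 h01 h12 h23 h34 h45 h56 h67 h70 hn := by
    have hcell : IsCell (Walk.cons (adj_of_cox h01) (Walk.cons (adj_of_cox h12)
        (Walk.cons (adj_of_cox h23) (Walk.cons (adj_of_cox h34)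
        (Walk.cons (adj_of_cox h45) (Walk.cons (adj_of_cox h56)
        (Walk.cons (adj_of_cox h67) (Walk.cons (adj_of_cox h70) Walk.nil)))))))) := by
      refine ⟨?_, Or.inr (Or.inr ⟨rfl, col, ?_⟩)⟩
      · simp only [List.nodup_cons, List.mem_cons, List.not_mem_nil, or_false, not_or] at hn
        simp only [Walk.cons_isCycle_iff, Walk.cons_isPath_iff, Walk.IsPath.nil, true_and,
          Walk.support_cons, Walk.support_nil, Walk.edges_cons, Walk.edges_nil, List.mem_cons,
          List.not_mem_nil, or_false, Sym2.eq_iff, Prod.mk.injEq]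
        grind
      · intro d hd
        simp only [Walk.darts_cons, Walk.darts_nil, List.mem_cons, List.not_mem_nil,
          or_false] at hd
        rcases hd with rfl | rfl | rfl | rfl | rfl | rfl | rfl | rfl <;> assumption
    have := walkProd_cell τ _ hcell
    simpa only [walkProd, mul_one] using this

theorem move_of_commutation {w w' : List (Letter m)} (h : Commutation w w') : Move w w' := by
  obtain ⟨x, z, a, b, hf, rfl, rfl⟩ := h
  have h1 : a ≠ b := by
    rintro rfl
    rcases hf with ⟨_, h⟩ | ⟨h, _⟩
    · omega
    · exact h rfl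
  have h2 : ¬ Adj3 a b := fun h => not_free_of_adj h hf
  have := Move.comm x z h1 h2
  simpa using this

theorem move_of_coxeter {c : Bool} {w w' : List (Letter m)} (h : CoxeterMove c w w') :
    Move w w' := by
  obtain ⟨x, z, i, j, hij, rfl, rfl⟩ := h
  have h2 : Adj3 (c, i) (c, j) := ⟨rfl, hij⟩
  have := Move.braid x z h2
  simpa using this

theorem move_of_mixed {w w' : List (Letter m)} (h : MixedMove w w') : Move w w' := by
  obtain ⟨x, z, i, c, rfl, rfl⟩ := h
  have h1 : ((c, i) : Letter m) ≠ (!c, i) := by
    intro h
    have := congrArg Prod.fst h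
    cases c <;> simp at this
  have h2 : ¬ Adj3 ((c, i) : Letter m) (!c, i) := by
    rintro ⟨h, _⟩
    cases c <;> simp at h
  have := Move.comm x z h1 h2
  simpa using this

/-- A cocycle with values in a group is a coboundary. -/
theorem coboundary {A : Type*} [Group A] {φ : Vertex m → Vertex m → A} (hφ : GCoc φ) :
    ∃ P : Vertex m → A, ∀ y z, (flipGraph m).Adj y z → φ y z = (P y)⁻¹ * P z := by
  obtain ⟨f, hf⟩ := exists_potential _ (u0 m) rfl _ (coc_of_gcoc hφ)
  have hfree : ∀ w w' : DWord m, Quotient.mk (commSetoid m) w = Quotient.mk (commSetoid m) w' →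
      f w.1 = f w'.1 := by
    intro w w' h
    have h' : Relation.EqvGen (fun w w' : DWord m => Commutation w.1 w'.1) w w' :=
      Quotient.exact h
    clear h
    induction h' with
    | rel w w' h =>
      have hr := (isDoubleWiring_iff w.1).mp w.2
      have hr' := (isDoubleWiring_iff w'.1).mp w'.2
      have h1 := hf w.1 w'.1 hr (move_of_commutation h)
      have h2 : cls w.1 = cls w'.1 := by
        rw [cls_eq hr, cls_eq hr']
        exact Quotient.sound (Relation.EqvGen.rel _ _ h)
      rw [h2, hφ.refl] at h1
      exact inv_mul_eq_one.mp h1.symm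
    | refl _ => rfl
    | symm _ _ _ ih => exact ih.symm
    | trans _ _ _ _ _ ih1 ih2 => exact ih1.trans ih2
  refine ⟨fun v => f (Quotient.out v).1, ?_⟩
  have hP : ∀ w : DWord m, f (Quotient.out (Quotient.mk (commSetoid m) w)).1 = f w.1 := by
    intro w
    exact hfree _ _ (Quotient.out_eq _)
  rintro y z (⟨c, w, w', rfl, rfl, h⟩ | ⟨w, w', rfl, rfl, h⟩)
  · have hr := (isDoubleWiring_iff w.1).mp w.2
    have hr' := (isDoubleWiring_iff w'.1).mp w'.2
    have h1 := hf w.1 w'.1 hr (move_of_coxeter h)
    simp only [cls_eq hr, cls_eq hr'] at h1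
    simp only [hP]
    exact h1
  · have hr := (isDoubleWiring_iff w.1).mp w.2
    have hr' := (isDoubleWiring_iff w'.1).mp w'.2
    have h1 := hf w.1 w'.1 hr (move_of_mixed h)
    simp only [cls_eq hr, cls_eq hr'] at h1
    simp only [hP]
    exact h1

theorem walkProd_coboundary {A : Type*} [Group A] {φ : Vertex m → Vertex m → A}
    {P : Vertex m → A} (hP : ∀ y z, (flipGraph m).Adj y z → φ y z = (P y)⁻¹ * P z)
    {y z : Vertex m} (p : (flipGraph m).Walk y z) : walkProd φ p = (P y)⁻¹ * P z := by
  induction p with
  | nil => simp [walkProd]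
  | cons h p ih =>
    simp only [walkProd]
    rw [ih, hP _ _ h]
    group

/-- The flip graph is connected. -/
theorem flipGraph_connected (m : ℕ) : (flipGraph m).Connected := by
  have : Nonempty (Vertex m) := ⟨Quotient.mk (commSetoid m) (baseWord m)⟩
  refine ⟨?_⟩
  intro y z
  induction y using Quotient.inductionOn with
  | _ w =>
  induction z using Quotient.inductionOn with
  | _ w' =>
  have hr := (isDoubleWiring_iff w.1).mp w.2
  have hr' := (isDoubleWiring_iff w'.1).mp w'.2
  have hcon := red_connected _ (u0 m) rfl w.1 w'.1 hr hr'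
  have key : ∀ a, Relation.ReflTransGen Move w.1 a →
      Red (u0 m) a ∧ (flipGraph m).Reachable (cls w.1) (cls a) := by
    intro a ha
    induction ha with
    | refl => exact ⟨hr, Reachable.refl _⟩
    | tail _ h2 ih =>
      refine ⟨h2.red ih.1, ih.2.trans ?_⟩
      obtain ⟨x, z, s, t, hst⟩ := h2
      rcases move_dichotomy hst with h | h
      · rw [h x z ih.1]
      · exact (h x z ih.1).reachable
  have := (key _ hcon).2
  rwa [cls_eq hr, cls_eq hr'] at this

/-- Every closed walk of the flip graph is null-homotopic in the complex `X_n`. -/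
theorem closed_walk_null {x : Vertex m} (c : (flipGraph m).Walk x x) :
    Homotopic c Walk.nil := by
  have hreach : ∀ y, Nonempty ((flipGraph m).Walk x y) := fun y =>
    (flipGraph_connected m).preconnected x y
  let τ : ∀ y, (flipGraph m).Walk x y := fun y => Classical.choice (hreach y)
  obtain ⟨P, hP⟩ := coboundary (gcoc_taut τ)
  have h1 := walkProd_coboundary hP c
  rw [walkProd_taut, inv_mul_cancel] at h1
  have h2 : Pi1.mk (τ x) * (Pi1.mk c * (Pi1.mk (τ x))⁻¹) = 1 := h1
  have h3 : Pi1.mk c = 1 := by
    have h4 := congrArg (fun g => (Pi1.mk (τ x))⁻¹ * g * Pi1.mk (τ x)) h2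
    simpa [mul_assoc] using h4
  exact Pi1.exact h3

/-- The flip graph `G_n` is connected and all its closed walks are null-homotopic in `X_n`. -/
theorem simply_connected (m : ℕ) : (flipGraph m).Connected ∧
    ∀ (x : Vertex m) (c : (flipGraph m).Walk x x), Homotopic c Walk.nil :=
  ⟨flipGraph_connected m, fun _ c => closed_walk_null c⟩

end Pool.Agent.Helper67.Flip
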