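import Pool.Agent.Helper67.FlipState

set_option autoImplicit false
set_option linter.unusedSimpArgs false

namespace Pool.Agent.Helper67.Flip

variable {m : ℕ}

/-- the inversions of an arrangement among the positions `0..m` -/
def invSet (m : ℕ) (g : ℕ → ℕ) : Finset (ℕ × ℕ) :=
  ((Finset.range (m + 1)) ×ˢ (Finset.range (m + 1))).filter (fun p => p.1 < p.2 ∧ g p.2 < g p.1)

def inv1 (m : ℕ) (g : ℕ → ℕ) : ℕ := (invSet m g).card

theorem mem_invSet {g : ℕ → ℕ} {p : ℕ × ℕ} : p ∈ invSet m g ↔
    p.1 < p.2 ∧ p.2 < m + 1 ∧ g p.2 < g p.1 := by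
  simp only [invSet, Finset.mem_filter, Finset.mem_product, Finset.mem_range]
  constructor
  · rintro ⟨⟨_, h2⟩, h3, h4⟩; exact ⟨h3, h2, h4⟩
  · rintro ⟨h3, h2, h4⟩; exact ⟨⟨by omega, h2⟩, h3, h4⟩

theorem swap_lt {i a b : ℕ} (hab : a < b) (h : ¬ (a = i ∧ b = i + 1)) :
    Equiv.swap i (i + 1) a < Equiv.swap i (i + 1) b := by
  simp only [Equiv.swap_apply_def]
  split_ifs <;> omega

theorem swap_range {i a : ℕ} (hi : i < m) (ha : a < m + 1) :
    Equiv.swap i (i + 1) a < m + 1 := by
  simp only [Equiv.swap_apply_def]
  split_ifs <;> omega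

theorem swap_swap_apply (i a : ℕ) : Equiv.swap i (i + 1) (Equiv.swap i (i + 1) a) = a :=
  Equiv.swap_apply_self _ _ _

theorem inv1_swap {g : ℕ → ℕ} {i : ℕ} (hi : i < m) (h : g (i + 1) < g i) :
    inv1 m (fun x => g (Equiv.swap i (i + 1) x)) + 1 = inv1 m g := by
  have hmem : (i, i + 1) ∈ invSet m g := by
    rw [mem_invSet]; exact ⟨by simp, by simp; omega, h⟩
  have hcard : (invSet m (fun x => g (Equiv.swap i (i + 1) x))).card =
      ((invSet m g).erase (i, i + 1)).card := by
    refine Finset.card_nbij' (fun p => (Equiv.swap i (i + 1) p.1, Equiv.swap i (i + 1) p.2))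
      (fun p => (Equiv.swap i (i + 1) p.1, Equiv.swap i (i + 1) p.2)) ?_ ?_ ?_ ?_
    · intro p hp
      simp only [Finset.mem_coe] at hp ⊢
      rw [mem_invSet] at hp
      obtain ⟨h1, h2, h3⟩ := hp
      have hne : ¬ (p.1 = i ∧ p.2 = i + 1) := by
        rintro ⟨e1, e2⟩
        rw [e1, e2] at h3
        simp only [Equiv.swap_apply_left, Equiv.swap_apply_right] at h3
        omega
      rw [Finset.mem_erase, mem_invSet]
      refine ⟨?_, swap_lt h1 hne, swap_range hi h2, h3⟩
      intro he
      have e1 := congrArg Prod.fst he
      have e2 := congrArg Prod.snd he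
      simp only at e1 e2
      have e1' := congrArg (Equiv.swap i (i + 1)) e1
      have e2' := congrArg (Equiv.swap i (i + 1)) e2
      rw [swap_swap_apply] at e1' e2'
      simp only [Equiv.swap_apply_left, Equiv.swap_apply_right] at e1' e2'
      omega
    · intro p hp
      simp only [Finset.mem_coe] at hp ⊢
      rw [Finset.mem_erase, mem_invSet] at hp
      obtain ⟨h0, h1, h2, h3⟩ := hp
      have hne : ¬ (p.1 = i ∧ p.2 = i + 1) := by
        rintro ⟨e1, e2⟩
        exact h0 (Prod.ext e1 e2)
      rw [mem_invSet]
      refine ⟨swap_lt h1 hne, swap_range hi h2, ?_⟩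
      simp only [swap_swap_apply]
      exact h3
    · intro p _; simp only [swap_swap_apply]
    · intro p _; simp only [swap_swap_apply]
  unfold inv1
  rw [hcard, Finset.card_erase_of_mem hmem]
  have : 0 < (invSet m g).card := Finset.card_pos.mpr ⟨_, hmem⟩
  omega

/-- total number of inversions -/
def inv (m : ℕ) (u : State) : ℕ := inv1 m (u false) + inv1 m (u true)

theorem inv_act {u : State} {s : Letter m} (h : Desc s u) : inv m (act s u) + 1 = inv m u := by
  obtain ⟨c, i⟩ := s
  have h' : u c (i.val + 1) < u c i.val := h
  have key := inv1_swap i.isLt h'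
  cases c
  · have e1 : act (false, i) u false = fun x => u false (Equiv.swap i.val (i.val + 1) x) := by
      funext x; simp [act]
    have e2 : act (false, i) u true = u true := by
      funext x; simp [act]
    unfold inv; rw [e1, e2]; omega
  · have e1 : act (true, i) u true = fun x => u true (Equiv.swap i.val (i.val + 1) x) := by
      funext x; simp [act]
    have e2 : act (true, i) u false = u false := by
      funext x; simp [act]
    unfold inv; rw [e1, e2]; omega

theorem exists_red : ∀ (n : ℕ) (u : State), inv m u = n → ∃ w : List (Letter m), Red u w := by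
  intro n
  induction n with
  | zero =>
    intro u hu
    refine ⟨[], trivial, ?_⟩
    intro s hs
    have h1 := inv_act hs
    simp only [run] at h1
    omega
  | succ n ih =>
    intro u hu
    by_cases h : ∃ s : Letter m, Desc s u
    · obtain ⟨s, hs⟩ := h
      obtain ⟨w, hw⟩ := ih (act s u) (by have := inv_act hs; omega)
      exact ⟨s :: w, by rw [red_cons]; exact ⟨hs, hw⟩⟩
    · push Not at h
      exact ⟨[], trivial, h⟩

/-- Any two complete descending words of a state are connected by moves. -/
theorem red_connected : ∀ (n : ℕ) (u : State), inv m u = n → ∀ a b : List (Letter m),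
    Red u a → Red u b → Relation.ReflTransGen Move a b := by
  intro n
  induction n using Nat.strong_induction_on with
  | _ n ih =>
    intro u hu a b ha hb
    rcases a with _ | ⟨s, a⟩
    · rcases b with _ | ⟨t, b⟩
      · exact Relation.ReflTransGen.refl
      · rw [red_cons] at hb
        exact absurd hb.1 (ha.2 t)
    · rcases b with _ | ⟨t, b⟩
      · rw [red_cons] at ha
        exact absurd ha.1 (hb.2 s)
      · rw [red_cons] at ha hb
        have hs := inv_act ha.1
        have ht := inv_act hb.1
        have lift : ∀ (r : Letter m) (x y : List (Letter m)), Relation.ReflTransGen Move x y →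
            Relation.ReflTransGen Move (r :: x) (r :: y) := by
          intro r x y h
          induction h with
          | refl => exact Relation.ReflTransGen.refl
          | tail _ h2 ih2 => exact ih2.tail (h2.cons r)
        by_cases hst : s = t
        · subst hst
          exact lift s _ _ (ih _ (by omega) (act s u) rfl a b ha.2 hb.2)
        · have hB := braid_of_desc hst ha.1 hb.1
          have hB2 := braid_ok hst hB
          obtain ⟨c, hc⟩ := exists_red (m := m) _ (run u (B s t)) rfl
          have h1 : Red u (B s t ++ c) := by rw [red_append]; exact ⟨hB, hc⟩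
          have h2 : Red u (B t s ++ c) := by
            rw [red_append]; exact ⟨hB2.1, by rw [← hB2.2]; exact hc⟩
          have e1 : Relation.ReflTransGen Move (s :: a) (B s t ++ c) := by
            rw [B_eq, List.cons_append] at h1 ⊢
            rw [red_cons] at h1
            exact lift s _ _ (ih _ (by omega) (act s u) rfl a _ ha.2 h1.2)
          have e2 : Relation.ReflTransGen Move (B t s ++ c) (t :: b) := by
            rw [B_eq, List.cons_append] at h2 ⊢
            rw [red_cons] at h2
            exact lift t _ _ (ih _ (by omega) (act t u) rfl _ b h2.2 hb.2)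
          exact e1.trans ((Relation.ReflTransGen.single (Move.mk [] c s t hst)).trans e2)

end Pool.Agent.Helper67.Flip
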