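import Pool.Agent.Helper67.FlipInv

set_option autoImplicit false
set_option linter.unusedSimpArgs false
set_option linter.unusedVariables false

namespace Pool.Agent.Helper67.Flip

variable {m : ℕ} {A : Type*} [Group A]

/-- product of `Φ` along a list of words -/
def chain (Φ : List (Letter m) → List (Letter m) → A) : List (List (Letter m)) → A
  | [] => 1
  | [_] => 1
  | a :: b :: l => Φ a b * chain Φ (b :: l)

theorem chain_map (Φ : List (Letter m) → List (Letter m) → A)
    (g : List (Letter m) → List (Letter m)) (l : List (List (Letter m))) :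
    chain (fun a b => Φ (g a) (g b)) l = chain Φ (l.map g) := by
  induction l with
  | nil => rfl
  | cons a l ih =>
    cases l with
    | nil => rfl
    | cons b l =>
      simp only [chain, List.map_cons] at ih ⊢
      rw [ih]

/-- the closed walk for three pairwise commuting letters -/
def hexW (s t r : Letter m) : List (List (Letter m)) :=
  [[s,t,r],[t,s,r],[t,r,s],[r,t,s],[r,s,t],[s,r,t],[s,t,r]]

/-- the closed walk for `A₂ × A₁` -/
def octW (a b c : Letter m) : List (List (Letter m)) :=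
  [[c,a,b,a],[a,c,b,a],[a,b,c,a],[a,b,a,c],[b,a,b,c],[b,a,c,b],[b,c,a,b],[c,b,a,b],[c,a,b,a]]

/-- the closed walk for `A₃` -/
def bigW (a b c : Letter m) : List (List (Letter m)) :=
  [[a,b,a,c,b,a],[b,a,b,c,b,a],[b,a,c,b,c,a],[b,c,a,b,c,a],[b,c,a,b,a,c],[b,c,b,a,b,c],
   [c,b,c,a,b,c],[c,b,a,c,b,c],[c,b,a,b,c,b],[c,a,b,a,c,b],
   [a,c,b,a,c,b],[a,c,b,c,a,b],[a,b,c,b,a,b],[a,b,c,a,b,a],[a,b,a,c,b,a]]

/-- the conditions on a function `Φ` on moves -/
structure Coc (u : State) (Φ : List (Letter m) → List (Letter m) → A) : Prop where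
  symm : ∀ a b, Red u a → Move a b → Φ b a = (Φ a b)⁻¹
  sq : ∀ (x y z : List (Letter m)) (s t s' t' : Letter m), s ≠ t → s' ≠ t' →
    Red u (x ++ (B s t ++ (y ++ (B s' t' ++ z)))) →
    Φ (x ++ (B s t ++ (y ++ (B s' t' ++ z)))) (x ++ (B t s ++ (y ++ (B s' t' ++ z)))) *
      Φ (x ++ (B t s ++ (y ++ (B s' t' ++ z)))) (x ++ (B t s ++ (y ++ (B t' s' ++ z)))) =
    Φ (x ++ (B s t ++ (y ++ (B s' t' ++ z)))) (x ++ (B s t ++ (y ++ (B t' s' ++ z)))) *
      Φ (x ++ (B s t ++ (y ++ (B t' s' ++ z)))) (x ++ (B t s ++ (y ++ (B t' s' ++ z))))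
  t0 : ∀ (x z : List (Letter m)) (s t r : Letter m), s ≠ t → t ≠ r → r ≠ s →
    ¬ Adj3 s t → ¬ Adj3 t r → ¬ Adj3 r s → Red u (x ++ ([s,t,r] ++ z)) →
    chain Φ ((hexW s t r).map (fun l => x ++ (l ++ z))) = 1
  t1 : ∀ (x z : List (Letter m)) (a b c : Letter m), Adj3 a b → ¬ Adj3 a c → ¬ Adj3 b c →
    a ≠ c → b ≠ c → Red u (x ++ ([c,a,b,a] ++ z)) →
    chain Φ ((octW a b c).map (fun l => x ++ (l ++ z))) = 1
  t2 : ∀ (x z : List (Letter m)) (a b c : Letter m), Adj3 a b → Adj3 b c → ¬ Adj3 a c →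
    a ≠ c → Red u (x ++ ([a,b,a,c,b,a] ++ z)) →
    chain Φ ((bigW a b c).map (fun l => x ++ (l ++ z))) = 1

theorem Coc.tail {u : State} {Φ : List (Letter m) → List (Letter m) → A} (h : Coc u Φ)
    {s : Letter m} (hs : Desc s u) : Coc (act s u) (fun a b => Φ (s :: a) (s :: b)) where
  symm a b ha hm := h.symm (s :: a) (s :: b) ((red_cons _ _ _).mpr ⟨hs, ha⟩) (hm.cons s)
  sq x y z s' t' s'' t'' h1 h2 h3 :=
    h.sq (s :: x) y z s' t' s'' t'' h1 h2 ((red_cons _ _ _).mpr ⟨hs, h3⟩)
  t0 x z s' t r h1 h2 h3 h4 h5 h6 h7 := by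
    have := h.t0 (s :: x) z s' t r h1 h2 h3 h4 h5 h6 ((red_cons _ _ _).mpr ⟨hs, h7⟩)
    rw [chain_map Φ (fun l => s :: l), List.map_map]
    exact this
  t1 x z a b c h1 h2 h3 h4 h5 h6 := by
    have := h.t1 (s :: x) z a b c h1 h2 h3 h4 h5 ((red_cons _ _ _).mpr ⟨hs, h6⟩)
    rw [chain_map Φ (fun l => s :: l), List.map_map]
    exact this
  t2 x z a b c h1 h2 h3 h4 h5 := by
    have := h.t2 (s :: x) z a b c h1 h2 h3 h4 ((red_cons _ _ _).mpr ⟨hs, h5⟩)
    rw [chain_map Φ (fun l => s :: l), List.map_map]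
    exact this

theorem Move.comm (x z : List (Letter m)) {s t : Letter m} (h : s ≠ t) (h' : ¬ Adj3 s t) :
    Move (x ++ ([s, t] ++ z)) (x ++ ([t, s] ++ z)) := by
  have := Move.mk x z s t h
  rwa [B_nadj h', B_nadj (fun h => h' h.symm)] at this

theorem Move.braid (x z : List (Letter m)) {s t : Letter m} (h : Adj3 s t) :
    Move (x ++ ([s, t, s] ++ z)) (x ++ ([t, s, t] ++ z)) := by
  have := Move.mk x z s t h.ne
  rwa [B_adj h, B_adj h.symm] at this

theorem ok_A3 {u : State} {a b c : Letter m} (hab : Adj3 a b) (hbc : Adj3 b c) (hac : a ≠ c)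
    (ha : Desc a u) (hb : Desc b u) (hc : Desc c u) : Ok u [a,b,a,c,b,a] := by
  obtain ⟨col, i⟩ := a
  obtain ⟨col', j⟩ := b
  obtain ⟨col'', k⟩ := c
  obtain ⟨h1, h2⟩ := hab
  obtain ⟨h3, h4⟩ := hbc
  simp only at h1 h2 h3 h4
  subst h1
  subst h3
  have hik : i.val ≠ k.val := by
    intro h
    exact hac (by rw [Fin.ext h])
  have h5 : (j.val = i.val + 1 ∧ k.val = i.val + 1 + 1) ∨
      (j.val = k.val + 1 ∧ i.val = k.val + 1 + 1) := by omega
  simp only [Ok, Desc, act, and_true, if_true] at ha hb hc ⊢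
  rcases h5 with ⟨h5, h6⟩ | ⟨h5, h6⟩
  · rw [h5] at hb
    rw [h6] at hc
    rw [h5, h6]
    generalize i.val = x at *
    have e1 : Equiv.swap x (x + 1) (x + 1) = x := Equiv.swap_apply_right _ _
    have e2 : Equiv.swap x (x + 1) x = x + 1 := Equiv.swap_apply_left _ _
    have e3 : Equiv.swap x (x + 1) (x + 1 + 1) = x + 1 + 1 :=
      Equiv.swap_apply_of_ne_of_ne (by omega) (by omega)
    have e4 : Equiv.swap x (x + 1) (x + 1 + 1 + 1) = x + 1 + 1 + 1 :=
      Equiv.swap_apply_of_ne_of_ne (by omega) (by omega)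
    have f1 : Equiv.swap (x + 1) (x + 1 + 1) x = x :=
      Equiv.swap_apply_of_ne_of_ne (by omega) (by omega)
    have f2 : Equiv.swap (x + 1) (x + 1 + 1) (x + 1) = x + 1 + 1 := Equiv.swap_apply_left _ _
    have f3 : Equiv.swap (x + 1) (x + 1 + 1) (x + 1 + 1) = x + 1 := Equiv.swap_apply_right _ _
    have f4 : Equiv.swap (x + 1) (x + 1 + 1) (x + 1 + 1 + 1) = x + 1 + 1 + 1 :=
      Equiv.swap_apply_of_ne_of_ne (by omega) (by omega)
    have g1 : Equiv.swap (x + 1 + 1) (x + 1 + 1 + 1) x = x :=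
      Equiv.swap_apply_of_ne_of_ne (by omega) (by omega)
    have g2 : Equiv.swap (x + 1 + 1) (x + 1 + 1 + 1) (x + 1) = x + 1 :=
      Equiv.swap_apply_of_ne_of_ne (by omega) (by omega)
    have g3 : Equiv.swap (x + 1 + 1) (x + 1 + 1 + 1) (x + 1 + 1) = x + 1 + 1 + 1 :=
      Equiv.swap_apply_left _ _
    have g4 : Equiv.swap (x + 1 + 1) (x + 1 + 1 + 1) (x + 1 + 1 + 1) = x + 1 + 1 :=
      Equiv.swap_apply_right _ _
    simp only [e1, e2, e3, e4, f1, f2, f3, f4, g1, g2, g3, g4]
    refine ⟨?_, ?_, ?_, ?_, ?_, ?_⟩ <;> omega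
  · rw [h5] at hb
    rw [h6] at ha
    rw [h5, h6]
    generalize k.val = x at *
    have e1 : Equiv.swap x (x + 1) (x + 1) = x := Equiv.swap_apply_right _ _
    have e2 : Equiv.swap x (x + 1) x = x + 1 := Equiv.swap_apply_left _ _
    have e3 : Equiv.swap x (x + 1) (x + 1 + 1) = x + 1 + 1 :=
      Equiv.swap_apply_of_ne_of_ne (by omega) (by omega)
    have e4 : Equiv.swap x (x + 1) (x + 1 + 1 + 1) = x + 1 + 1 + 1 :=
      Equiv.swap_apply_of_ne_of_ne (by omega) (by omega)
    have f1 : Equiv.swap (x + 1) (x + 1 + 1) x = x :=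
      Equiv.swap_apply_of_ne_of_ne (by omega) (by omega)
    have f2 : Equiv.swap (x + 1) (x + 1 + 1) (x + 1) = x + 1 + 1 := Equiv.swap_apply_left _ _
    have f3 : Equiv.swap (x + 1) (x + 1 + 1) (x + 1 + 1) = x + 1 := Equiv.swap_apply_right _ _
    have f4 : Equiv.swap (x + 1) (x + 1 + 1) (x + 1 + 1 + 1) = x + 1 + 1 + 1 :=
      Equiv.swap_apply_of_ne_of_ne (by omega) (by omega)
    have g1 : Equiv.swap (x + 1 + 1) (x + 1 + 1 + 1) x = x :=
      Equiv.swap_apply_of_ne_of_ne (by omega) (by omega)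
    have g2 : Equiv.swap (x + 1 + 1) (x + 1 + 1 + 1) (x + 1) = x + 1 :=
      Equiv.swap_apply_of_ne_of_ne (by omega) (by omega)
    have g3 : Equiv.swap (x + 1 + 1) (x + 1 + 1 + 1) (x + 1 + 1) = x + 1 + 1 + 1 :=
      Equiv.swap_apply_left _ _
    have g4 : Equiv.swap (x + 1 + 1) (x + 1 + 1 + 1) (x + 1 + 1 + 1) = x + 1 + 1 :=
      Equiv.swap_apply_right _ _
    simp only [e1, e2, e3, e4, f1, f2, f3, f4, g1, g2, g3, g4]
    refine ⟨?_, ?_, ?_, ?_, ?_, ?_⟩ <;> omega

section
variable {u : State} {Φ : List (Letter m) → List (Letter m) → A} (hΦ : Coc u Φ)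
  {F : Letter m → List (Letter m) → A}
  (hF : ∀ s : Letter m, Desc s u → ∀ a b, Red (act s u) a → Move a b →
    Φ (s :: a) (s :: b) = (F s a)⁻¹ * F s b)

/-- transition element computed with the rest `c` -/
def tau (Φ : List (Letter m) → List (Letter m) → A) (F : Letter m → List (Letter m) → A)
    (s t : Letter m) (c : List (Letter m)) : A :=
  F s (B' s t ++ c) * Φ (B s t ++ c) (B t s ++ c) * (F t (B' t s ++ c))⁻¹

include hΦ hF in
theorem tau_move {s t : Letter m} (hst : s ≠ t) (hs : Desc s u) (ht : Desc t u)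
    {c c' : List (Letter m)} (hc : Red (run u (B s t)) c) (hm : Move c c') :
    tau Φ F s t c = tau Φ F s t c' := by
  obtain ⟨y, z, s', t', h'⟩ := hm
  have hB := braid_of_desc hst hs ht
  have hB2 := braid_ok hst hB
  have hr1 : Red u (B s t ++ (y ++ (B s' t' ++ z))) := by rw [red_append]; exact ⟨hB, hc⟩
  have hr2 : Red u (B t s ++ (y ++ (B s' t' ++ z))) := by
    rw [red_append]; exact ⟨hB2.1, by rw [← hB2.2]; exact hc⟩
  have hsq := hΦ.sq [] y z s t s' t' hst h' hr1
  simp only [List.nil_append] at hsq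
  have e1 : Φ (B s t ++ (y ++ (B s' t' ++ z))) (B s t ++ (y ++ (B t' s' ++ z))) =
      (F s (B' s t ++ (y ++ (B s' t' ++ z))))⁻¹ * F s (B' s t ++ (y ++ (B t' s' ++ z))) := by
    rw [B_eq s t] at hr1 ⊢
    rw [List.cons_append, red_cons] at hr1
    have := hF s hs _ _ hr1.2 (by
      have := Move.mk (B' s t ++ y) z s' t' h'
      rwa [List.append_assoc, List.append_assoc] at this)
    exact this
  have e2 : Φ (B t s ++ (y ++ (B s' t' ++ z))) (B t s ++ (y ++ (B t' s' ++ z))) =
      (F t (B' t s ++ (y ++ (B s' t' ++ z))))⁻¹ * F t (B' t s ++ (y ++ (B t' s' ++ z))) := by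
    rw [B_eq t s] at hr2 ⊢
    rw [List.cons_append, red_cons] at hr2
    have := hF t ht _ _ hr2.2 (by
      have := Move.mk (B' t s ++ y) z s' t' h'
      rwa [List.append_assoc, List.append_assoc] at this)
    exact this
  rw [e1, e2] at hsq
  unfold tau
  have h3 := congrArg (fun g => F s (B' s t ++ (y ++ (B s' t' ++ z))) * g *
    (F t (B' t s ++ (y ++ (B t' s' ++ z))))⁻¹) hsq
  have h4 : F s (B' s t ++ (y ++ (B s' t' ++ z))) *
      Φ (B s t ++ (y ++ (B s' t' ++ z))) (B t s ++ (y ++ (B s' t' ++ z))) *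
      (F t (B' t s ++ (y ++ (B s' t' ++ z))))⁻¹ =
      F s (B' s t ++ (y ++ (B t' s' ++ z))) *
      Φ (B s t ++ (y ++ (B t' s' ++ z))) (B t s ++ (y ++ (B t' s' ++ z))) *
      (F t (B' t s ++ (y ++ (B t' s' ++ z))))⁻¹ := by
    simpa [mul_assoc] using h3
  exact h4

include hΦ hF in
theorem tau_indep {s t : Letter m} (hst : s ≠ t) (hs : Desc s u) (ht : Desc t u)
    {c c' : List (Letter m)} (hc : Red (run u (B s t)) c) (hc' : Red (run u (B s t)) c') :
    tau Φ F s t c = tau Φ F s t c' := by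
  have hcon := red_connected _ (run u (B s t)) rfl c c' hc hc'
  clear hc'
  induction hcon with
  | refl => rfl
  | tail h1 h2 ih =>
    rw [ih]
    apply tau_move hΦ hF hst hs ht _ h2
    clear ih h2
    induction h1 with
    | refl => exact hc
    | tail _ h4 ih => exact h4.red ih

/-- the transition element -/
noncomputable def tauS (u : State) (Φ : List (Letter m) → List (Letter m) → A)
    (F : Letter m → List (Letter m) → A) (s t : Letter m) : A :=
  if s = t then 1 else tau Φ F s t (Classical.choose (exists_red (m := m) _ (run u (B s t)) rfl))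

include hΦ hF in
theorem tauS_eq {s t : Letter m} (hst : s ≠ t) (hs : Desc s u) (ht : Desc t u)
    {c : List (Letter m)} (hc : Red (run u (B s t)) c) :
    tauS u Φ F s t = tau Φ F s t c := by
  unfold tauS
  rw [if_neg hst]
  exact tau_indep hΦ hF hst hs ht
    (Classical.choose_spec (exists_red (m := m) _ (run u (B s t)) rfl)) hc

include hΦ hF in
theorem tauS_symm {s t : Letter m} (hs : Desc s u) (ht : Desc t u) :
    tauS u Φ F s t * tauS u Φ F t s = 1 := by
  by_cases hst : s = t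
  · subst hst; simp [tauS]
  · obtain ⟨c, hc⟩ := exists_red (m := m) _ (run u (B s t)) rfl
    have hB := braid_of_desc hst hs ht
    have hB2 := braid_ok hst hB
    have hc2 : Red (run u (B t s)) c := by rw [← hB2.2]; exact hc
    rw [tauS_eq hΦ hF hst hs ht hc, tauS_eq hΦ hF (Ne.symm hst) ht hs hc2]
    have hr1 : Red u (B s t ++ c) := by rw [red_append]; exact ⟨hB, hc⟩
    have := hΦ.symm _ _ hr1 (Move.mk [] c s t hst)
    simp only [List.nil_append] at this
    unfold tau
    rw [this]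
    group

include hΦ hF in
/-- front commutation -/
theorem tauS_comm {s t : Letter m} (hst : s ≠ t) (h : ¬ Adj3 s t) {c : List (Letter m)}
    (hr : Red u (s :: t :: c)) (hr' : Red u (t :: s :: c)) :
    tauS u Φ F s t = F s (t :: c) * Φ (s :: t :: c) (t :: s :: c) * (F t (s :: c))⁻¹ := by
  have hs : Desc s u := ((red_cons _ _ _).mp hr).1
  have ht : Desc t u := ((red_cons _ _ _).mp hr').1
  have hc : Red (run u (B s t)) c := by
    rw [B_nadj h]
    exact ((red_append u [s, t] c).mp hr).2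
  have h' : ¬ Adj3 t s := fun h' => h h'.symm
  rw [tauS_eq hΦ hF hst hs ht hc]
  simp [tau, B, B', h, h']

include hΦ hF in
/-- front braid -/
theorem tauS_braid {s t : Letter m} (h : Adj3 s t) {c : List (Letter m)}
    (hr : Red u (s :: t :: s :: c)) (hr' : Red u (t :: s :: t :: c)) :
    tauS u Φ F s t = F s (t :: s :: c) * Φ (s :: t :: s :: c) (t :: s :: t :: c) *
      (F t (s :: t :: c))⁻¹ := by
  have hs : Desc s u := ((red_cons _ _ _).mp hr).1
  have ht : Desc t u := ((red_cons _ _ _).mp hr').1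
  have hc : Red (run u (B s t)) c := by
    rw [B_adj h]
    exact ((red_append u [s, t, s] c).mp hr).2
  rw [tauS_eq hΦ hF h.ne hs ht hc]
  simp [tau, B, B', h, h.symm]

theorem Move.red_comm {u : State} (x z : List (Letter m)) {s t : Letter m} (h : s ≠ t)
    (h' : ¬ Adj3 s t) (hr : Red u (x ++ ([s, t] ++ z))) : Red u (x ++ ([t, s] ++ z)) :=
  (Move.comm x z h h').red hr

theorem Move.red_braid {u : State} (x z : List (Letter m)) {s t : Letter m}
    (h : Adj3 s t) (hr : Red u (x ++ ([s, t, s] ++ z))) : Red u (x ++ ([t, s, t] ++ z)) :=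
  (Move.braid x z h).red hr

include hF in
theorem inner_comm (x z : List (Letter m)) {r s t : Letter m} (h : s ≠ t)
    (h' : ¬ Adj3 s t) (hr : Red u (r :: (x ++ ([s, t] ++ z)))) :
    Φ (r :: (x ++ ([s, t] ++ z))) (r :: (x ++ ([t, s] ++ z))) =
      (F r (x ++ ([s, t] ++ z)))⁻¹ * F r (x ++ ([t, s] ++ z)) := by
  rw [red_cons] at hr
  exact hF r hr.1 _ _ hr.2 (Move.comm x z h h')

include hF in
theorem inner_braid (x z : List (Letter m)) {r s t : Letter m}
    (h' : Adj3 s t) (hr : Red u (r :: (x ++ ([s, t, s] ++ z)))) :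
    Φ (r :: (x ++ ([s, t, s] ++ z))) (r :: (x ++ ([t, s, t] ++ z))) =
      (F r (x ++ ([s, t, s] ++ z)))⁻¹ * F r (x ++ ([t, s, t] ++ z)) := by
  rw [red_cons] at hr
  exact hF r hr.1 _ _ hr.2 (Move.braid x z h')

include hΦ hF in
/-- triangle relation for three pairwise commuting letters -/
theorem tri0 {s t r : Letter m} (h1 : s ≠ t) (h2 : t ≠ r) (h3 : r ≠ s) (n1 : ¬ Adj3 s t)
    (n2 : ¬ Adj3 t r) (n3 : ¬ Adj3 r s) (hs : Desc s u) (ht : Desc t u) (hr : Desc r u) :
    tauS u Φ F s t * tauS u Φ F t r * tauS u Φ F r s = 1 := by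
  have d1 : Desc t (act s u) := desc_act h1 n1 ht
  have d2 : Desc r (act s u) := desc_act (Ne.symm h3) (fun h => n3 h.symm) hr
  have d3 : Desc r (act t (act s u)) := desc_act h2 n2 d2
  obtain ⟨e, he⟩ := exists_red (m := m) _ (act r (act t (act s u))) rfl
  have w0 : Red u ([s,t,r] ++ e) := by
    simp only [List.cons_append, List.nil_append, red_cons]
    exact ⟨hs, d1, d3, he⟩
  have n1' : ¬ Adj3 t s := fun h => n1 h.symm
  have n2' : ¬ Adj3 r t := fun h => n2 h.symm
  have n3' : ¬ Adj3 s r := fun h => n3 h.symm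
  have w1 : Red u ([t,s,r] ++ e) := Move.red_comm [] (r :: e) h1 n1 w0
  have w2 : Red u ([t,r,s] ++ e) := Move.red_comm [t] e (Ne.symm h3) n3' w1
  have w3 : Red u ([r,t,s] ++ e) := Move.red_comm [] (s :: e) h2 n2 w2
  have w4 : Red u ([r,s,t] ++ e) := Move.red_comm [r] e (Ne.symm h1) n1' w3
  have w5 : Red u ([s,r,t] ++ e) := Move.red_comm [] (t :: e) h3 n3 w4
  have hc := hΦ.t0 [] e s t r h1 h2 h3 n1 n2 n3 w0
  have t1 := tauS_comm hΦ hF h1 n1 w0 w1
  have t2 := tauS_comm hΦ hF h2 n2 w2 w3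
  have t3 := tauS_comm hΦ hF h3 n3 w4 w5
  have i1 := inner_comm hF [] e (r := t) (Ne.symm h3) n3' w1
  have i2 := inner_comm hF [] e (r := r) (Ne.symm h1) n1' w3
  have i3 := inner_comm hF [] e (r := s) (Ne.symm h2) n2' w5
  simp only [hexW, List.map_cons, List.map_nil, chain, List.nil_append, List.cons_append]
    at hc i1 i2 i3
  rw [i1, i2, i3] at hc
  rw [t1, t2, t3]
  have h4 := congrArg (fun g => F s (t :: r :: e) * g * (F s (t :: r :: e))⁻¹) hc
  simpa [mul_assoc] using h4

include hΦ hF in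
/-- triangle relation for `A₂ × A₁` -/
theorem tri1 {a b c : Letter m} (hab : Adj3 a b) (nac : ¬ Adj3 a c) (nbc : ¬ Adj3 b c)
    (hac : a ≠ c) (hbc : b ≠ c) (ha : Desc a u) (hb : Desc b u) (hc : Desc c u) :
    tauS u Φ F c a * tauS u Φ F a b * tauS u Φ F b c = 1 := by
  have nca : ¬ Adj3 c a := fun h => nac h.symm
  have ncb : ¬ Adj3 c b := fun h => nbc h.symm
  have hca := Ne.symm hac
  have hcb := Ne.symm hbc
  have d1 : Desc a (act c u) := desc_act hca nca ha
  have d2 : Desc b (act c u) := desc_act hcb ncb hb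
  have d3 := braid_of_desc hab.ne d1 d2
  rw [B_adj hab] at d3
  obtain ⟨e, he⟩ := exists_red (m := m) _ (run (act c u) [a,b,a]) rfl
  have w0 : Red u ([c,a,b,a] ++ e) := by
    have : Red u (c :: ([a,b,a] ++ e)) := by
      rw [red_cons, red_append]
      exact ⟨hc, d3, he⟩
    exact this
  have w1 : Red u ([a,c,b,a] ++ e) := Move.red_comm [] (b :: a :: e) hca nca w0
  have w2 : Red u ([a,b,c,a] ++ e) := Move.red_comm [a] (a :: e) hcb ncb w1
  have w3 : Red u ([a,b,a,c] ++ e) := Move.red_comm [a,b] e hca nca w2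
  have w4 : Red u ([b,a,b,c] ++ e) := Move.red_braid [] (c :: e) hab w3
  have w5 : Red u ([b,a,c,b] ++ e) := Move.red_comm [b,a] e hbc nbc w4
  have w6 : Red u ([b,c,a,b] ++ e) := Move.red_comm [b] (b :: e) hac nac w5
  have w7 : Red u ([c,b,a,b] ++ e) := Move.red_comm [] (a :: b :: e) hbc nbc w6
  have hch := hΦ.t1 [] e a b c hab nac nbc hac hbc w0
  have t1 := tauS_comm hΦ hF hca nca w0 w1
  have t2 := tauS_braid hΦ hF hab w3 w4
  have t3 := tauS_comm hΦ hF hbc nbc w6 w7
  have i1 := inner_comm hF [] (a :: e) (r := a) hcb ncb w1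
  have i2 := inner_comm hF [b] e (r := a) hca nca w2
  have i3 := inner_comm hF [a] e (r := b) hbc nbc w4
  have i4 := inner_comm hF [] (b :: e) (r := b) hac nac w5
  have i5 := inner_braid hF [] e (r := c) hab.symm w7
  simp only [octW, List.map_cons, List.map_nil, chain, List.nil_append, List.cons_append]
    at hch i1 i2 i3 i4 i5 t1 t2 t3
  rw [i1, i2, i3, i4, i5] at hch
  rw [t1, t2, t3]
  have h4 := congrArg (fun g => F c (a :: b :: a :: e) * g * (F c (a :: b :: a :: e))⁻¹) hch
  simpa [mul_assoc] using h4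

include hΦ hF in
/-- triangle relation for `A₃` -/
theorem tri2 {a b c : Letter m} (hab : Adj3 a b) (hbc : Adj3 b c) (nac : ¬ Adj3 a c)
    (hac : a ≠ c) (ha : Desc a u) (hb : Desc b u) (hc : Desc c u) :
    tauS u Φ F a b * tauS u Φ F b c * tauS u Φ F c a = 1 := by
  have nca : ¬ Adj3 c a := fun h => nac h.symm
  have hca := Ne.symm hac
  obtain ⟨e, he⟩ := exists_red (m := m) _ (run u [a,b,a,c,b,a]) rfl
  have w0 : Red u ([a,b,a,c,b,a] ++ e) := by
    rw [red_append]
    exact ⟨ok_A3 hab hbc hac ha hb hc, he⟩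
  have w1 : Red u ([b,a,b,c,b,a] ++ e) := Move.red_braid [] ([c,b,a] ++ e) hab w0
  have w2 : Red u ([b,a,c,b,c,a] ++ e) := Move.red_braid [b,a] ([a] ++ e) hbc w1
  have w3 : Red u ([b,c,a,b,c,a] ++ e) := Move.red_comm [b] ([b,c,a] ++ e) hac nac w2
  have w4 : Red u ([b,c,a,b,a,c] ++ e) := Move.red_comm [b,c,a,b] e hca nca w3
  have w5 : Red u ([b,c,b,a,b,c] ++ e) := Move.red_braid [b,c] ([c] ++ e) hab w4
  have w6 : Red u ([c,b,c,a,b,c] ++ e) := Move.red_braid [] ([a,b,c] ++ e) hbc w5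
  have w7 : Red u ([c,b,a,c,b,c] ++ e) := Move.red_comm [c,b] ([b,c] ++ e) hca nca w6
  have w8 : Red u ([c,b,a,b,c,b] ++ e) := Move.red_braid [c,b,a] e hbc.symm w7
  have w9 : Red u ([c,a,b,a,c,b] ++ e) := Move.red_braid [c] ([c,b] ++ e) hab.symm w8
  have w10 : Red u ([a,c,b,a,c,b] ++ e) := Move.red_comm [] ([b,a,c,b] ++ e) hca nca w9
  have w11 : Red u ([a,c,b,c,a,b] ++ e) := Move.red_comm [a,c,b] ([b] ++ e) hac nac w10
  have w12 : Red u ([a,b,c,b,a,b] ++ e) := Move.red_braid [a] ([a,b] ++ e) hbc.symm w11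
  have w13 : Red u ([a,b,c,a,b,a] ++ e) := Move.red_braid [a,b,c] e hab.symm w12
  have hch := hΦ.t2 [] e a b c hab hbc nac hac w0
  have t1 := tauS_braid hΦ hF hab w0 w1
  have t2 := tauS_braid hΦ hF hbc w5 w6
  have t3 := tauS_comm hΦ hF hca nca w9 w10
  have i1 := inner_braid hF [a] ([a] ++ e) (r := b) hbc w1
  have i2 := inner_comm hF [] ([b,c,a] ++ e) (r := b) hac nac w2
  have i3 := inner_comm hF [c,a,b] e (r := b) hca nca w3
  have i4 := inner_braid hF [c] ([c] ++ e) (r := b) hab w4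
  have i5 := inner_comm hF [b] ([b,c] ++ e) (r := c) hca nca w6
  have i6 := inner_braid hF [b,a] e (r := c) hbc.symm w7
  have i7 := inner_braid hF [] ([c,b] ++ e) (r := c) hab.symm w8
  have i8 := inner_comm hF [c,b] ([b] ++ e) (r := a) hac nac w10
  have i9 := inner_braid hF [] ([a,b] ++ e) (r := a) hbc.symm w11
  have i10 := inner_braid hF [b,c] e (r := a) hab.symm w12
  have i11 := inner_comm hF [b] ([b,a] ++ e) (r := a) hca nca w13
  simp only [bigW, List.map_cons, List.map_nil, chain, List.nil_append, List.cons_append]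
    at hch i1 i2 i3 i4 i5 i6 i7 i8 i9 i10 i11 t1 t2 t3
  rw [i1, i2, i3, i4, i5, i6, i7, i8, i9, i10, i11] at hch
  rw [t1, t2, t3]
  have h4 := congrArg (fun g => F a (b :: a :: c :: b :: a :: e) * g *
    (F a (b :: a :: c :: b :: a :: e))⁻¹) hch
  simpa [mul_assoc] using h4

/-- the triangle relation -/
def Tri (u : State) (Φ : List (Letter m) → List (Letter m) → A)
    (F : Letter m → List (Letter m) → A) (s t r : Letter m) : Prop :=
  tauS u Φ F s t * tauS u Φ F t r * tauS u Φ F r s = 1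

theorem Tri.rot {s t r : Letter m} (h : Tri u Φ F s t r) : Tri u Φ F t r s := by
  unfold Tri at *
  rw [mul_assoc] at h
  exact mul_eq_one_comm.mp h |> fun h => by simpa [mul_assoc] using h

include hΦ hF in
theorem Tri.flip {s t r : Letter m} (hs : Desc s u) (ht : Desc t u) (hr : Desc r u)
    (h : Tri u Φ F s t r) : Tri u Φ F r t s := by
  unfold Tri at *
  have e1 : tauS u Φ F s t = (tauS u Φ F t s)⁻¹ :=
    eq_inv_of_mul_eq_one_left (tauS_symm hΦ hF hs ht)
  have e2 : tauS u Φ F t r = (tauS u Φ F r t)⁻¹ :=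
    eq_inv_of_mul_eq_one_left (tauS_symm hΦ hF ht hr)
  have e3 : tauS u Φ F r s = (tauS u Φ F s r)⁻¹ :=
    eq_inv_of_mul_eq_one_left (tauS_symm hΦ hF hr hs)
  rw [e1, e2, e3] at h
  have h2 := congrArg (fun g => g⁻¹) h
  simp only [mul_inv_rev, inv_inv, inv_one] at h2
  have h3 : tauS u Φ F s r * (tauS u Φ F r t * tauS u Φ F t s) = 1 := by
    simpa [mul_assoc] using h2
  exact mul_eq_one_comm.mp h3

include hΦ hF in
theorem tri_all {s t r : Letter m} (h1 : s ≠ t) (h2 : t ≠ r) (h3 : r ≠ s)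
    (hs : Desc s u) (ht : Desc t u) (hr : Desc r u) : Tri u Φ F s t r := by
  by_cases a1 : Adj3 s t
  · by_cases a2 : Adj3 t r
    · by_cases a3 : Adj3 r s
      · exfalso
        obtain ⟨_, b1⟩ := a1
        obtain ⟨_, b2⟩ := a2
        obtain ⟨_, b3⟩ := a3
        omega
      · exact tri2 hΦ hF a1 a2 (fun h => a3 h.symm) (Ne.symm h3) hs ht hr
    · by_cases a3 : Adj3 r s
      · -- r - s - t
        have : Tri u Φ F r s t := tri2 hΦ hF a3 a1 (fun h => a2 h.symm) (Ne.symm h2) hr hs ht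
        exact this.rot
      · -- s - t, r
        have : Tri u Φ F r s t :=
          tri1 hΦ hF a1 (fun h => a3 h.symm) a2 (Ne.symm h3) h2 hs ht hr
        exact this.rot
  · by_cases a2 : Adj3 t r
    · by_cases a3 : Adj3 r s
      · -- t - r - s
        have : Tri u Φ F t r s := tri2 hΦ hF a2 a3 (fun h => a1 h.symm) (Ne.symm h1) ht hr hs
        exact this.rot.rot
      · -- t - r, s
        have : Tri u Φ F s t r :=
          tri1 hΦ hF a2 (fun h => a1 h.symm) a3 (Ne.symm h1) h3 ht hr hs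
        exact this
    · by_cases a3 : Adj3 r s
      · -- r - s, t
        have : Tri u Φ F t r s :=
          tri1 hΦ hF a3 (fun h => a2 h.symm) a1 (Ne.symm h2) h1 hr hs ht
        exact this.rot.rot
      · exact tri0 hΦ hF h1 h2 h3 a1 a2 a3 hs ht hr

end

/-- Existence of a potential: the analogue of Tits' theorem on the homotopy of words. -/
theorem exists_potential : ∀ (n : ℕ) (u : State), inv m u = n →
    ∀ Φ : List (Letter m) → List (Letter m) → A, Coc u Φ →
    ∃ f : List (Letter m) → A, ∀ a b, Red u a → Move a b → Φ a b = (f a)⁻¹ * f b := by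
  intro n
  induction n using Nat.strong_induction_on with
  | _ n ih =>
    intro u hu Φ hΦ
    by_cases hD : ∃ s0 : Letter m, Desc s0 u
    · obtain ⟨s0, hs0⟩ := hD
      have hex : ∀ s : Letter m, ∃ f : List (Letter m) → A, Desc s u → ∀ a b,
          Red (act s u) a → Move a b → Φ (s :: a) (s :: b) = (f a)⁻¹ * f b := by
        intro s
        by_cases hs : Desc s u
        · obtain ⟨f, hf⟩ := ih _ (by have := inv_act hs; omega) (act s u) rfl _ (hΦ.tail hs)
          exact ⟨f, fun _ => hf⟩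
        · exact ⟨fun _ => 1, fun h => absurd h hs⟩
      choose F hF using hex
      have htri : ∀ s t, Desc s u → Desc t u →
          tauS u Φ F s0 s * tauS u Φ F s t = tauS u Φ F s0 t := by
        intro s t hs ht
        by_cases h1 : s0 = s
        · subst h1; simp [tauS]
        · by_cases h2 : s = t
          · subst h2; simp [tauS]
          · by_cases h3 : t = s0
            · subst h3
              rw [tauS_symm hΦ hF hs0 hs]; simp [tauS]
            · have h4 : tauS u Φ F s0 s * tauS u Φ F s t * tauS u Φ F t s0 = 1 :=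
                tri_all hΦ hF h1 h2 h3 hs0 hs ht
              have h5 := tauS_symm hΦ hF ht hs0
              have h6 : tauS u Φ F s0 t = (tauS u Φ F t s0)⁻¹ := eq_inv_of_mul_eq_one_right h5
              rw [h6]
              exact eq_inv_of_mul_eq_one_left h4
      refine ⟨fun w => match w with
        | [] => 1
        | s :: a => tauS u Φ F s0 s * F s a, ?_⟩
      rintro a b ha ⟨x, z, s, t, hst⟩
      rcases x with _ | ⟨r, x⟩
      · -- front move
        simp only [List.nil_append] at ha ⊢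
        have ha' := (red_append _ _ _).mp ha
        have hb : Red u (B t s ++ z) := by
          have := (Move.mk [] z s t hst).red ha
          exact this
        have hs : Desc s u := by
          rw [B_eq, List.cons_append, red_cons] at ha; exact ha.1
        have ht : Desc t u := by
          rw [B_eq, List.cons_append, red_cons] at hb; exact hb.1
        have h1 := tauS_eq hΦ hF hst hs ht ha'.2
        have h2 := htri s t hs ht
        rw [h1] at h2
        unfold tau at h2
        rw [B_eq s t, B_eq t s] at h2 ⊢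
        simp only [List.cons_append] at h2 ⊢
        rw [← h2]
        group
      · simp only [List.cons_append] at ha ⊢
        rw [red_cons] at ha
        rw [hF r ha.1 _ _ ha.2 (Move.mk x z s t hst)]
        group
    · push Not at hD
      refine ⟨fun _ => 1, ?_⟩
      rintro a b ha ⟨x, z, s, t, hst⟩
      exfalso
      rcases x with _ | ⟨r, x⟩
      · simp only [List.nil_append] at ha
        rw [B_eq, List.cons_append, red_cons] at ha
        exact hD _ ha.1
      · simp only [List.cons_append] at ha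
        rw [red_cons] at ha
        exact hD _ ha.1

end Pool.Agent.Helper67.Flip
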