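import Pool.Agent.Helper67.FlipDefs

/-!
# Descending words from a state
-/

set_option autoImplicit false
set_option linter.unusedSimpArgs false

namespace Pool.Agent.Helper67.Flip

variable {m : ℕ}

/-- A state: for each colour an arrangement of numbers at the positions `0, 1, 2, ...`. -/
abbrev State := Bool → ℕ → ℕ

/-- The letter `s` is a descent of `u`. -/
def Desc (s : Letter m) (u : State) : Prop := u s.1 (s.2.val + 1) < u s.1 s.2.val

/-- Apply the letter `s`. -/
def act (s : Letter m) (u : State) : State := fun c x =>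
  if c = s.1 then u c (Equiv.swap s.2.val (s.2.val + 1) x) else u c x

def run : State → List (Letter m) → State
  | u, [] => u
  | u, s :: w => run (act s u) w

def Ok : State → List (Letter m) → Prop
  | _, [] => True
  | u, s :: w => Desc s u ∧ Ok (act s u) w

/-- no descents -/
def Term (m : ℕ) (u : State) : Prop := ∀ s : Letter m, ¬ Desc s u

/-- complete descending words -/
def Red (u : State) (w : List (Letter m)) : Prop := Ok u w ∧ Term m (run u w)

theorem run_append (u : State) (a b : List (Letter m)) : run u (a ++ b) = run (run u a) b := by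
  induction a generalizing u with
  | nil => rfl
  | cons s a ih => exact ih _

theorem ok_append (u : State) (a b : List (Letter m)) :
    Ok u (a ++ b) ↔ Ok u a ∧ Ok (run u a) b := by
  induction a generalizing u with
  | nil => simp [Ok, run]
  | cons s a ih => simp [Ok, run, ih, and_assoc]

theorem red_append (u : State) (a b : List (Letter m)) :
    Red u (a ++ b) ↔ Ok u a ∧ Red (run u a) b := by
  simp [Red, ok_append, run_append, and_assoc]

theorem red_cons (u : State) (s : Letter m) (b : List (Letter m)) :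
    Red u (s :: b) ↔ Desc s u ∧ Red (act s u) b := by
  simp [Red, Ok, run, and_assoc]

/-- adjacency in the Coxeter diagram (`m(s,t) = 3`) -/
def Adj3 (s t : Letter m) : Prop := s.1 = t.1 ∧ (s.2.val + 1 = t.2.val ∨ t.2.val + 1 = s.2.val)

instance (s t : Letter m) : Decidable (Adj3 s t) := by unfold Adj3; infer_instance

theorem Adj3.symm {s t : Letter m} (h : Adj3 s t) : Adj3 t s := ⟨h.1.symm, h.2.symm⟩

theorem Adj3.ne {s t : Letter m} (h : Adj3 s t) : s ≠ t := by
  rintro rfl; have := h.2; omega

/-- braid words -/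
def B (s t : Letter m) : List (Letter m) := if Adj3 s t then [s, t, s] else [s, t]

theorem B_adj {s t : Letter m} (h : Adj3 s t) : B s t = [s, t, s] := by simp [B, h]
theorem B_nadj {s t : Letter m} (h : ¬ Adj3 s t) : B s t = [s, t] := by simp [B, h]

/-- the tail of a braid word -/
def B' (s t : Letter m) : List (Letter m) := if Adj3 s t then [t, s] else [t]

theorem B_eq (s t : Letter m) : B s t = s :: B' s t := by
  unfold B B'; split_ifs <;> rfl

theorem letter_ne {s t : Letter m} (h : s ≠ t) : s.1 ≠ t.1 ∨ s.2.val ≠ t.2.val := by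
  by_contra h'
  push Not at h'
  exact h (Prod.ext h'.1 (Fin.ext h'.2))

/-- commuting letters: the two orders have the same effect -/
theorem comm_ok {u : State} {s t : Letter m} (hst : s ≠ t) (h : ¬ Adj3 s t)
    (ho : Ok u [s, t]) : Ok u [t, s] ∧ run u [s, t] = run u [t, s] := by
  have hne := letter_ne hst
  simp only [Adj3, not_and_or, not_or] at h
  by_cases hc : s.1 = t.1
  · have h1 : s.2.val + 1 ≠ t.2.val ∧ t.2.val + 1 ≠ s.2.val := by
      rcases h with h | h
      · exact absurd hc h
      · exact h
    have h2 : s.2.val ≠ t.2.val := by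
      rcases hne with h | h
      · exact absurd hc h
      · exact h
    simp only [Ok, Desc, act, and_true, hc, if_true] at ho ⊢
    have e1 : Equiv.swap s.2.val (s.2.val + 1) t.2.val = t.2.val :=
      Equiv.swap_apply_of_ne_of_ne (by omega) (by omega)
    have e2 : Equiv.swap s.2.val (s.2.val + 1) (t.2.val + 1) = t.2.val + 1 :=
      Equiv.swap_apply_of_ne_of_ne (by omega) (by omega)
    have e3 : Equiv.swap t.2.val (t.2.val + 1) s.2.val = s.2.val :=
      Equiv.swap_apply_of_ne_of_ne (by omega) (by omega)
    have e4 : Equiv.swap t.2.val (t.2.val + 1) (s.2.val + 1) = s.2.val + 1 :=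
      Equiv.swap_apply_of_ne_of_ne (by omega) (by omega)
    rw [e1, e2] at ho
    rw [e3, e4]
    refine ⟨⟨ho.2, ho.1⟩, ?_⟩
    funext c x
    simp only [run, act, hc]
    split_ifs with h3
    · congr 1
      simp only [Equiv.swap_apply_def]
      split_ifs <;> omega
    · rfl
  · have hc' : ¬ t.1 = s.1 := fun h => hc h.symm
    simp only [Ok, Desc, act, and_true, hc, hc', if_false] at ho ⊢
    refine ⟨⟨ho.2, ho.1⟩, ?_⟩
    funext c x
    simp only [run, act]
    by_cases h3 : c = s.1
    · have h4 : ¬ c = t.1 := fun h => hc (h3 ▸ h)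
      simp [h3, hc]
    · simp [h3]

theorem swap_braid (i x : ℕ) : Equiv.swap i (i + 1) (Equiv.swap (i + 1) (i + 1 + 1)
    (Equiv.swap i (i + 1) x)) = Equiv.swap (i + 1) (i + 1 + 1) (Equiv.swap i (i + 1)
    (Equiv.swap (i + 1) (i + 1 + 1) x)) := by
  have f1 : Equiv.swap i (i + 1) (i + 1 + 1) = i + 1 + 1 :=
    Equiv.swap_apply_of_ne_of_ne (by omega) (by omega)
  have f2 : Equiv.swap (i + 1) (i + 1 + 1) i = i :=
    Equiv.swap_apply_of_ne_of_ne (by omega) (by omega)
  by_cases h1 : x = i
  · subst h1
    simp only [f1, f2, Equiv.swap_apply_left, Equiv.swap_apply_right]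
  · by_cases h2 : x = i + 1
    · subst h2
      simp only [f1, f2, Equiv.swap_apply_left, Equiv.swap_apply_right]
    · by_cases h3 : x = i + 1 + 1
      · subst h3
        simp only [f1, f2, Equiv.swap_apply_left, Equiv.swap_apply_right]
      · rw [Equiv.swap_apply_of_ne_of_ne h1 h2, Equiv.swap_apply_of_ne_of_ne h2 h3,
          Equiv.swap_apply_of_ne_of_ne h1 h2, Equiv.swap_apply_of_ne_of_ne h2 h3]

theorem adj_ok {u : State} {s t : Letter m} (h : Adj3 s t)
    (ho : Ok u [s, t, s]) : Ok u [t, s, t] ∧ run u [s, t, s] = run u [t, s, t] := by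
  obtain ⟨hc, h1⟩ := h
  obtain ⟨c, i⟩ := s
  obtain ⟨c', j⟩ := t
  simp only at hc h1
  subst hc
  simp only [Ok, Desc, act, and_true, if_true] at ho ⊢
  have key : ∀ x, Equiv.swap i.val (i.val + 1) (Equiv.swap j.val (j.val + 1)
      (Equiv.swap i.val (i.val + 1) x)) = Equiv.swap j.val (j.val + 1)
      (Equiv.swap i.val (i.val + 1) (Equiv.swap j.val (j.val + 1) x)) := by
    intro x
    rcases h1 with h1 | h1
    · rw [← h1]; exact swap_braid _ _
    · rw [← h1]; exact (swap_braid _ _).symm
  refine ⟨?_, ?_⟩
  · obtain ⟨a1, a2, a3⟩ := ho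
    rcases h1 with h1 | h1
    · have hj : j.val = i.val + 1 := by omega
      rw [hj] at a2 a3 ⊢
      have e1 : Equiv.swap i.val (i.val + 1) (i.val + 1) = i.val := Equiv.swap_apply_right _ _
      have e2 : Equiv.swap i.val (i.val + 1) (i.val + 1 + 1) = i.val + 1 + 1 :=
        Equiv.swap_apply_of_ne_of_ne (by omega) (by omega)
      have e3 : Equiv.swap (i.val + 1) (i.val + 1 + 1) i.val = i.val :=
        Equiv.swap_apply_of_ne_of_ne (by omega) (by omega)
      have e4 : Equiv.swap (i.val + 1) (i.val + 1 + 1) (i.val + 1) = i.val + 1 + 1 :=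
        Equiv.swap_apply_left _ _
      have e5 : Equiv.swap (i.val + 1) (i.val + 1 + 1) (i.val + 1 + 1) = i.val + 1 :=
        Equiv.swap_apply_right _ _
      have e6 : Equiv.swap i.val (i.val + 1) i.val = i.val + 1 := Equiv.swap_apply_left _ _
      simp only [e1, e2, e3, e4, e5, e6] at a1 a2 a3 ⊢
      refine ⟨a3, a2, a1⟩
    · have hj : i.val = j.val + 1 := by omega
      rw [hj] at a1 a2 a3 ⊢
      have e1 : Equiv.swap j.val (j.val + 1) (j.val + 1) = j.val := Equiv.swap_apply_right _ _
      have e2 : Equiv.swap j.val (j.val + 1) (j.val + 1 + 1) = j.val + 1 + 1 :=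
        Equiv.swap_apply_of_ne_of_ne (by omega) (by omega)
      have e3 : Equiv.swap (j.val + 1) (j.val + 1 + 1) j.val = j.val :=
        Equiv.swap_apply_of_ne_of_ne (by omega) (by omega)
      have e4 : Equiv.swap (j.val + 1) (j.val + 1 + 1) (j.val + 1) = j.val + 1 + 1 :=
        Equiv.swap_apply_left _ _
      have e5 : Equiv.swap (j.val + 1) (j.val + 1 + 1) (j.val + 1 + 1) = j.val + 1 :=
        Equiv.swap_apply_right _ _
      have e6 : Equiv.swap j.val (j.val + 1) j.val = j.val + 1 := Equiv.swap_apply_left _ _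
      simp only [e1, e2, e3, e4, e5, e6] at a1 a2 a3 ⊢
      refine ⟨a3, a2, a1⟩
  · funext d x
    simp only [run, act]
    split_ifs with h3
    · rw [key]
    · rfl

/-- Both braid words of a pair of letters have the same effect. -/
theorem braid_ok {u : State} {s t : Letter m} (hst : s ≠ t) (ho : Ok u (B s t)) :
    Ok u (B t s) ∧ run u (B s t) = run u (B t s) := by
  by_cases h : Adj3 s t
  · rw [B_adj h] at ho
    rw [B_adj h, B_adj h.symm]
    exact adj_ok h ho
  · have h' : ¬ Adj3 t s := fun h' => h h'.symm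
    rw [B_nadj h] at ho
    rw [B_nadj h, B_nadj h']
    exact comm_ok hst h ho

/-- commuting letters do not disturb descents -/
theorem desc_act {u : State} {s t : Letter m} (hst : s ≠ t) (h : ¬ Adj3 s t) (ht : Desc t u) :
    Desc t (act s u) := by
  have hne := letter_ne hst
  simp only [Adj3, not_and_or, not_or] at h
  by_cases hc : s.1 = t.1
  · have h1 : s.2.val + 1 ≠ t.2.val ∧ t.2.val + 1 ≠ s.2.val := by
      rcases h with h | h
      · exact absurd hc h
      · exact h
    have h2 : s.2.val ≠ t.2.val := by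
      rcases hne with h | h
      · exact absurd hc h
      · exact h
    simp only [Desc, act, hc, if_true] at ht ⊢
    have e1 : Equiv.swap s.2.val (s.2.val + 1) t.2.val = t.2.val :=
      Equiv.swap_apply_of_ne_of_ne (by omega) (by omega)
    have e2 : Equiv.swap s.2.val (s.2.val + 1) (t.2.val + 1) = t.2.val + 1 :=
      Equiv.swap_apply_of_ne_of_ne (by omega) (by omega)
    rw [e1, e2]; exact ht
  · have hc' : ¬ t.1 = s.1 := fun h => hc h.symm
    simp only [Desc, act, hc', if_false] at ht ⊢
    exact ht

/-- If `s` and `t` are descents then the braid word can be applied. -/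
theorem braid_of_desc {u : State} {s t : Letter m} (hst : s ≠ t) (hs : Desc s u) (ht : Desc t u) :
    Ok u (B s t) := by
  by_cases h : Adj3 s t
  · rw [B_adj h]
    obtain ⟨hc, h1⟩ := h
    obtain ⟨c, i⟩ := s
    obtain ⟨c', j⟩ := t
    simp only at hc h1
    subst hc
    simp only [Ok, Desc, act, and_true, if_true] at hs ht ⊢
    rcases h1 with h1 | h1
    · have hj : j.val = i.val + 1 := by omega
      rw [hj] at ht ⊢
      have e1 : Equiv.swap i.val (i.val + 1) (i.val + 1) = i.val := Equiv.swap_apply_right _ _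
      have e2 : Equiv.swap i.val (i.val + 1) (i.val + 1 + 1) = i.val + 1 + 1 :=
        Equiv.swap_apply_of_ne_of_ne (by omega) (by omega)
      have e3 : Equiv.swap (i.val + 1) (i.val + 1 + 1) i.val = i.val :=
        Equiv.swap_apply_of_ne_of_ne (by omega) (by omega)
      have e4 : Equiv.swap (i.val + 1) (i.val + 1 + 1) (i.val + 1) = i.val + 1 + 1 :=
        Equiv.swap_apply_left _ _
      have e6 : Equiv.swap i.val (i.val + 1) i.val = i.val + 1 := Equiv.swap_apply_left _ _
      simp only [e1, e2, e3, e4, e6]
      refine ⟨hs, by omega, ht⟩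
    · have hj : i.val = j.val + 1 := by omega
      rw [hj] at hs ⊢
      have e1 : Equiv.swap j.val (j.val + 1) (j.val + 1) = j.val := Equiv.swap_apply_right _ _
      have e3 : Equiv.swap (j.val + 1) (j.val + 1 + 1) j.val = j.val :=
        Equiv.swap_apply_of_ne_of_ne (by omega) (by omega)
      have e4 : Equiv.swap (j.val + 1) (j.val + 1 + 1) (j.val + 1) = j.val + 1 + 1 :=
        Equiv.swap_apply_left _ _
      have e5 : Equiv.swap (j.val + 1) (j.val + 1 + 1) (j.val + 1 + 1) = j.val + 1 :=
        Equiv.swap_apply_right _ _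
      have e2 : Equiv.swap j.val (j.val + 1) (j.val + 1 + 1) = j.val + 1 + 1 :=
        Equiv.swap_apply_of_ne_of_ne (by omega) (by omega)
      simp only [e1, e2, e3, e4, e5]
      refine ⟨hs, by omega, ht⟩
  · rw [B_nadj h]
    exact ⟨hs, desc_act hst h ht, trivial⟩

/-- One move: a braid relation (of length two or three) applied inside a word. -/
inductive Move : List (Letter m) → List (Letter m) → Prop
  | mk (x z : List (Letter m)) (s t : Letter m) (h : s ≠ t) :
      Move (x ++ (B s t ++ z)) (x ++ (B t s ++ z))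

theorem Move.symm {a b : List (Letter m)} (h : Move a b) : Move b a := by
  obtain ⟨x, z, s, t, h⟩ := h
  exact Move.mk x z t s h.symm

theorem Move.cons {a b : List (Letter m)} (r : Letter m) (h : Move a b) :
    Move (r :: a) (r :: b) := by
  obtain ⟨x, z, s, t, h⟩ := h
  exact Move.mk (r :: x) z s t h

theorem Move.red {u : State} {a b : List (Letter m)} (h : Move a b) (ha : Red u a) : Red u b := by
  obtain ⟨x, z, s, t, h⟩ := h
  simp only [red_append] at ha ⊢
  obtain ⟨h1, h2, h3⟩ := ha
  have := braid_ok h h2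
  exact ⟨h1, this.1, by rw [← this.2]; exact h3⟩

theorem Move.run {u : State} {a b : List (Letter m)} (h : Move a b) (ha : Ok u a) :
    Ok u b ∧ run u a = run u b := by
  obtain ⟨x, z, s, t, h⟩ := h
  simp only [ok_append, run_append] at ha ⊢
  obtain ⟨h1, h2, h3⟩ := ha
  have := braid_ok h h2
  exact ⟨⟨h1, this.1, by rw [← this.2]; exact h3⟩, by rw [this.2]⟩

end Pool.Agent.Helper67.Flip
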